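import Pool.Agent.Q292.RSA.Seq

/-! Generating functions of the moments. -/

set_option autoImplicit false

namespace Q292.RSA

open Finset Filter Topology

/-- The recursions for the first two moments. -/
structure Mom (r : ℕ) (m q : ℕ → ℝ) : Prop where
  hr : 2 ≤ r
  m0 : ∀ n, n < r → m n = 0
  q0 : ∀ n, n < r → q n = 0
  mrec : ∀ k : ℕ, ((k : ℝ) + 1) * m (k + r) = ((k : ℝ) + 1) + 2 * ∑ i ∈ range (k + 1), m i
  qrec : ∀ k : ℕ, ((k : ℝ) + 1) * q (k + r) = ((k : ℝ) + 1) + 4 * ∑ i ∈ range (k + 1), m i +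
    2 * ∑ i ∈ range (k + 1), q i + 2 * ∑ i ∈ range (k + 1), m i * m (k - i)

/-! ### Power series -/

theorem summable_sq {x : ℝ} (hx : |x| < 1) : Summable (fun n : ℕ => ((n : ℝ) + 1) ^ 2 * |x| ^ n) := by
  have h := summable_pow_mul_geometric_of_norm_lt_one 2 (r := |x|) (by simpa using hx)
  have h1 := summable_pow_mul_geometric_of_norm_lt_one 1 (r := |x|) (by simpa using hx)
  have h0 := summable_geometric_of_lt_one (abs_nonneg x) hx
  have := (h.add (h1.mul_left 2)).add h0
  refine this.congr (fun n => ?_)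
  ring

theorem summable_cube {x : ℝ} (hx : |x| < 1) : Summable (fun n : ℕ => ((n : ℝ) + 1) ^ 3 * |x| ^ n) := by
  have h3 := summable_pow_mul_geometric_of_norm_lt_one 3 (r := |x|) (by simpa using hx)
  have h := summable_pow_mul_geometric_of_norm_lt_one 2 (r := |x|) (by simpa using hx)
  have h1 := summable_pow_mul_geometric_of_norm_lt_one 1 (r := |x|) (by simpa using hx)
  have h0 := summable_geometric_of_lt_one (abs_nonneg x) hx
  have := ((h3.add (h.mul_left 3)).add (h1.mul_left 3)).add h0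
  refine this.congr (fun n => ?_)
  ring

theorem summable_of_bound {a : ℕ → ℝ} {A : ℝ} (ha : ∀ n, |a n| ≤ A * ((n : ℝ) + 1) ^ 2)
    {x : ℝ} (hx : |x| < 1) : Summable (fun n => a n * x ^ n) := by
  apply Summable.of_norm_bounded ((summable_sq hx).mul_left A)
  intro n
  rw [Real.norm_eq_abs, abs_mul, abs_pow]
  calc |a n| * |x| ^ n ≤ A * ((n : ℝ) + 1) ^ 2 * |x| ^ n :=
        mul_le_mul_of_nonneg_right (ha n) (by positivity)
    _ = _ := by ring

theorem summable_norm_of_bound {a : ℕ → ℝ} {A : ℝ} (ha : ∀ n, |a n| ≤ A * ((n : ℝ) + 1) ^ 2)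
    {x : ℝ} (hx : |x| < 1) : Summable (fun n => ‖a n * x ^ n‖) := by
  apply Summable.of_nonneg_of_le (fun n => norm_nonneg _) _ ((summable_sq hx).mul_left A)
  intro n
  rw [Real.norm_eq_abs, abs_mul, abs_pow]
  calc |a n| * |x| ^ n ≤ A * ((n : ℝ) + 1) ^ 2 * |x| ^ n :=
        mul_le_mul_of_nonneg_right (ha n) (by positivity)
    _ = _ := by ring

/-- Term by term differentiation. -/
theorem hasDerivAt_series {a : ℕ → ℝ} {A : ℝ} (ha : ∀ n, |a n| ≤ A * ((n : ℝ) + 1) ^ 2)
    {x : ℝ} (hx : |x| < 1) :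
    HasDerivAt (fun x => ∑' k : ℕ, a k * x ^ (k + 1)) (∑' k : ℕ, ((k : ℝ) + 1) * a k * x ^ k) x := by
  obtain ⟨ρ, hρ1, hρ2⟩ := exists_between hx
  have hρ0 : 0 ≤ ρ := (abs_nonneg x).trans hρ1.le
  have hA : 0 ≤ A := by
    have h1 := ha 0
    have h2 := abs_nonneg (a 0)
    push_cast at h1
    linarith
  have hsum := (summable_cube (x := ρ) (by rw [abs_of_nonneg hρ0]; exact hρ2)).mul_left A
  rw [abs_of_nonneg hρ0] at hsum
  refine hasDerivAt_tsum_of_isPreconnected (u := fun n : ℕ => A * (((n : ℝ) + 1) ^ 3 * ρ ^ n))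
    (g := fun (k : ℕ) (x : ℝ) => a k * x ^ (k + 1))
    (g' := fun (k : ℕ) (x : ℝ) => ((k : ℝ) + 1) * a k * x ^ k)
    (t := Metric.ball (0 : ℝ) ρ) hsum Metric.isOpen_ball (convex_ball _ _).isPreconnected
    (y₀ := 0) ?_ ?_ ?_ ?_ ?_
  · intro n y _
    have := (hasDerivAt_pow (n + 1) y).const_mul (a n)
    refine this.congr_deriv ?_
    rw [Nat.add_sub_cancel]
    push_cast
    ring
  · intro n y hy
    rw [mem_ball_zero_iff, Real.norm_eq_abs] at hy
    rw [Real.norm_eq_abs, abs_mul, abs_mul, abs_pow, abs_of_nonneg (by positivity : (0 : ℝ) ≤ (n : ℝ) + 1)]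
    calc ((n : ℝ) + 1) * |a n| * |y| ^ n ≤ ((n : ℝ) + 1) * (A * ((n : ℝ) + 1) ^ 2) * ρ ^ n := by
          apply mul_le_mul
          · exact mul_le_mul_of_nonneg_left (ha n) (by positivity)
          · exact pow_le_pow_left₀ (abs_nonneg y) hy.le n
          · positivity
          · positivity
      _ = _ := by ring
  · rw [mem_ball_zero_iff, norm_zero]
    exact lt_of_le_of_lt (abs_nonneg x) hρ1
  · apply summable_zero.congr
    intro n
    simp
  · rw [mem_ball_zero_iff, Real.norm_eq_abs]; exact hρ1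

/-- Abel's theorem, for sequences of linear growth. -/
theorem abel {a : ℕ → ℝ} {L : ℝ} {r : ℕ} (hr : 1 ≤ r)
    (h : Tendsto (fun n : ℕ => a n / ((n : ℝ) + r)) atTop (nhds L)) :
    Tendsto (fun x : ℝ => (1 - x) ^ 2 * ∑' n : ℕ, a n * x ^ n) (𝓝[<] 1) (nhds L) := by
  -- the deviation
  set d : ℕ → ℝ := fun n => a n - L * ((n : ℝ) + 1) with hd
  have hd0 : Tendsto (fun n : ℕ => d n / ((n : ℝ) + 1)) atTop (nhds 0) := by
    have h1 : Tendsto (fun n : ℕ => ((n : ℝ) + r) / ((n : ℝ) + 1)) atTop (nhds 1) := by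
      have h2 : Tendsto (fun n : ℕ => 1 + ((r : ℝ) - 1) * (1 / ((n : ℝ) + 1))) atTop
          (nhds (1 + ((r : ℝ) - 1) * 0)) :=
        (tendsto_one_div_add_atTop_nhds_zero_nat.const_mul _).const_add _
      rw [mul_zero, add_zero] at h2
      refine h2.congr (fun n => ?_)
      have : (n : ℝ) + 1 ≠ 0 := by positivity
      field_simp
      ring
    have h3 := (h.mul h1).sub_const L
    rw [mul_one, sub_self] at h3
    refine h3.congr (fun n => ?_)
    have e1 : (n : ℝ) + 1 ≠ 0 := by positivity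
    have e2 : (n : ℝ) + r ≠ 0 := by positivity
    rw [hd]
    field_simp
  -- a global bound
  have hbd : ∃ A, 0 ≤ A ∧ ∀ n, |d n| ≤ A * ((n : ℝ) + 1) := by
    obtain ⟨A, hA⟩ := (Metric.isBounded_range_of_tendsto _ hd0).exists_norm_le
    refine ⟨A, (norm_nonneg _).trans (hA _ ⟨0, rfl⟩), fun n => ?_⟩
    have := hA _ ⟨n, rfl⟩
    rw [Real.norm_eq_abs, abs_div, abs_of_pos (by positivity : (0 : ℝ) < (n : ℝ) + 1),
      div_le_iff₀ (by positivity)] at this
    exact this
  obtain ⟨A, hA0, hA⟩ := hbd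
  have hsq : ∀ n : ℕ, (n : ℝ) + 1 ≤ ((n : ℝ) + 1) ^ 2 := by
    intro n
    have : (0 : ℝ) ≤ n := by positivity
    nlinarith
  have hA2 : ∀ n, |d n| ≤ A * ((n : ℝ) + 1) ^ 2 := fun n =>
    (hA n).trans (mul_le_mul_of_nonneg_left (hsq n) hA0)
  have hone : ∀ x : ℝ, |x| < 1 → HasSum (fun n : ℕ => ((n : ℝ) + 1) * x ^ n) (1 / (1 - x) ^ 2) := by
    intro x hx
    have := hasSum_choose_mul_geometric_of_norm_lt_one 1 (r := x) (by simpa using hx)
    simpa [Nat.choose_one_right] using this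
  have hsplit : ∀ x : ℝ, |x| < 1 → (1 - x) ^ 2 * ∑' n : ℕ, a n * x ^ n =
      L + (1 - x) ^ 2 * ∑' n : ℕ, d n * x ^ n := by
    intro x hx
    have h1 := hone x hx
    have h2 : ∑' n : ℕ, a n * x ^ n = L * (1 / (1 - x) ^ 2) + ∑' n : ℕ, d n * x ^ n := by
      rw [← h1.tsum_eq, ← tsum_mul_left, ← (h1.summable.mul_left L).tsum_add
        (summable_of_bound hA2 hx)]
      apply tsum_congr
      intro n
      rw [hd]; ring
    rw [h2]
    have hne : 1 - x ≠ 0 := by
      have : x < 1 := (le_abs_self x).trans_lt hx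
      linarith
    rw [mul_add]
    congr 1
    field_simp
  have hlim : Tendsto (fun x : ℝ => (1 - x) ^ 2 * ∑' n : ℕ, d n * x ^ n) (𝓝[<] 1) (nhds 0) := by
    rw [Metric.tendsto_nhdsWithin_nhds]
    intro ε hε
    rw [Metric.tendsto_atTop] at hd0
    obtain ⟨N, hN⟩ := hd0 (ε / 2) (by positivity)
    set C : ℝ := ∑ n ∈ range N, |d n| with hC
    have hC0 : 0 ≤ C := sum_nonneg (fun _ _ => abs_nonneg _)
    refine ⟨min (1 / 2) (ε / (2 * (C + 1))), by positivity, ?_⟩
    intro x hx1 hx2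
    rw [Set.mem_Iio] at hx1
    rw [Real.dist_eq, abs_sub_comm, abs_of_pos (by linarith : (0 : ℝ) < 1 - x)] at hx2
    have hx3 : 1 - x < 1 / 2 := lt_of_lt_of_le hx2 (min_le_left _ _)
    have hx4 : 1 - x < ε / (2 * (C + 1)) := lt_of_lt_of_le hx2 (min_le_right _ _)
    have hx0 : 0 ≤ x := by linarith
    have hxa : |x| < 1 := by rw [abs_of_nonneg hx0]; exact hx1
    rw [Real.dist_eq, sub_zero, abs_mul, abs_of_nonneg (by positivity : (0 : ℝ) ≤ (1 - x) ^ 2)]
    have h1 : |∑' n : ℕ, d n * x ^ n| ≤ C + ε / 2 * (1 / (1 - x) ^ 2) := by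
      have hs := summable_norm_of_bound hA2 hxa
      have h2 : ‖∑' n : ℕ, d n * x ^ n‖ ≤ ∑' n : ℕ, ‖d n * x ^ n‖ := norm_tsum_le_tsum_norm hs
      rw [Real.norm_eq_abs] at h2
      refine h2.trans ?_
      have h3 : ∀ n : ℕ, ‖d n * x ^ n‖ ≤ (if n < N then |d n| else 0) + ε / 2 * (((n : ℝ) + 1) * x ^ n) := by
        intro n
        rw [Real.norm_eq_abs, abs_mul, abs_pow, abs_of_nonneg hx0]
        have hxn : x ^ n ≤ 1 := pow_le_one₀ hx0 hx1.le
        have hxn0 : 0 ≤ x ^ n := by positivity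
        by_cases hn : n < N
        · rw [if_pos hn]
          have : |d n| * x ^ n ≤ |d n| * 1 := mul_le_mul_of_nonneg_left hxn (abs_nonneg _)
          have : 0 ≤ ε / 2 * (((n : ℝ) + 1) * x ^ n) := by positivity
          linarith
        · rw [if_neg hn, zero_add]
          have h4 := hN n (by omega)
          rw [Real.dist_eq, sub_zero, abs_div, abs_of_pos (by positivity : (0 : ℝ) < (n : ℝ) + 1),
            div_lt_iff₀ (by positivity)] at h4
          calc |d n| * x ^ n ≤ ε / 2 * ((n : ℝ) + 1) * x ^ n :=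
                mul_le_mul_of_nonneg_right h4.le hxn0
            _ = _ := by ring
      have hs2 : Summable (fun n : ℕ => if n < N then |d n| else 0) := by
        apply summable_of_ne_finset_zero (s := range N)
        intro n hn
        rw [mem_range] at hn
        rw [if_neg hn]
      have hs3 := (hone x hxa).summable.mul_left (ε / 2)
      refine (hs.tsum_le_tsum h3 (hs2.add hs3)).trans ?_
      rw [hs2.tsum_add hs3, tsum_mul_left, (hone x hxa).tsum_eq]
      apply add_le_add _ (le_refl _)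
      rw [tsum_eq_sum (s := range N) (fun n hn => by rw [mem_range] at hn; rw [if_neg hn])]
      apply le_of_eq
      apply sum_congr rfl
      intro n hn
      rw [if_pos (mem_range.1 hn)]
    have hpos : 0 < (1 - x) ^ 2 := by
      have : 0 < 1 - x := by linarith
      positivity
    calc (1 - x) ^ 2 * |∑' n : ℕ, d n * x ^ n|
        ≤ (1 - x) ^ 2 * (C + ε / 2 * (1 / (1 - x) ^ 2)) := mul_le_mul_of_nonneg_left h1 hpos.le
      _ = (1 - x) ^ 2 * C + ε / 2 := by field_simp
      _ < ε := by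
          have h5 : (1 - x) ^ 2 ≤ 1 - x := by nlinarith
          have h6 : (1 - x) ^ 2 * C ≤ (1 - x) * C := mul_le_mul_of_nonneg_right h5 hC0
          have h7 : (1 - x) * (C + 1) < ε / 2 := by
            rw [lt_div_iff₀ (by positivity)] at hx4
            linarith
          have : 0 < 1 - x := by linarith
          nlinarith
  have h5 := hlim.const_add L
  rw [add_zero] at h5
  refine h5.congr' ?_
  have : Set.Ioo (0 : ℝ) 1 ∈ 𝓝[<] (1 : ℝ) := Ioo_mem_nhdsLT (by norm_num)
  filter_upwards [this] with x hx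
  exact (hsplit x (by rw [abs_of_pos hx.1]; exact hx.2)).symm

end Q292.RSA
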