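import Pool.Agent.Q292.RSA.Ode2

/-! The limits. -/

set_option autoImplicit false

namespace Q292.RSA

open Finset Filter Topology

theorem two_pow_bound (n : ℕ) : ((n : ℝ) + 1) ^ 2 ≤ 4 * 2 ^ n := by
  induction n with
  | zero => norm_num
  | succ n ih =>
    rcases Nat.lt_or_ge n 2 with h | h
    · interval_cases n <;> norm_num
    · push_cast
      have h2 : (2 : ℝ) ≤ n := by exact_mod_cast h
      have h3 : ((n : ℝ) + 1 + 1) ^ 2 ≤ 2 * ((n : ℝ) + 1) ^ 2 := by nlinarith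
      have h4 : (2 : ℝ) ^ (n + 1) = 2 * 2 ^ n := by ring
      rw [h4]
      linarith

/-- The asymptotic line of the mean. -/
theorem mean_line {p : ℕ} {m q : ℕ → ℝ} (h : Mom (p + 2) m q) :
    ∃ c K : ℝ, 0 ≤ K ∧ ∀ n : ℕ, |m n + 1 - c * ((n : ℝ) + (p + 2 : ℕ))| ≤ K / ((n : ℝ) + 1) := by
  have hu : ∀ k : ℕ, ((k : ℝ) + 1) * (fun n => m n + 1) (k + (p + 2)) =
      2 * ∑ i ∈ range (k + 1), (fun n => m n + 1) i := by
    intro k
    simp only
    rw [sum_add_distrib, mul_add, h.mrec k]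
    simp
    ring
  obtain ⟨c, K, hK, hc⟩ := conv_hom (y := fun n => m n + 1) (by omega : 1 ≤ p + 2) hu
  refine ⟨c, K * (p + 2 : ℕ) * 4, by positivity, fun n => (hc n).trans ?_⟩
  rw [div_le_div_iff₀ (by positivity) (by positivity)]
  have h1 := two_pow_bound n
  have h2 : (n : ℝ) + (p + 2 : ℕ) ≤ (p + 2 : ℕ) * ((n : ℝ) + 1) := by
    push_cast
    have hn : (0 : ℝ) ≤ n := by positivity
    have hp : (0 : ℝ) ≤ p := by positivity
    nlinarith [mul_nonneg hn hp]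
  have h3 : 0 ≤ (n : ℝ) + 1 := by positivity
  calc K * ((n : ℝ) + (p + 2 : ℕ)) * ((n : ℝ) + 1)
      ≤ K * ((p + 2 : ℕ) * ((n : ℝ) + 1)) * ((n : ℝ) + 1) := by gcongr
    _ = K * (p + 2 : ℕ) * ((n : ℝ) + 1) ^ 2 := by ring
    _ ≤ K * (p + 2 : ℕ) * (4 * 2 ^ n) := by gcongr
    _ = K * (p + 2 : ℕ) * 4 * 2 ^ n := by ring

/-- The recursion for the variance. -/
theorem var_rec {p : ℕ} {m q : ℕ → ℝ} (h : Mom (p + 2) m q) (c : ℝ) (k : ℕ) :
    ((k : ℝ) + 1) * (q (k + (p + 2)) - m (k + (p + 2)) ^ 2) =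
      2 * ∑ i ∈ range (k + 1), (q i - m i ^ 2) +
      ∑ i ∈ range (k + 1), ((m i + 1 - c * ((i : ℝ) + (p + 2 : ℕ))) +
        (m (k - i) + 1 - c * (((k - i : ℕ) : ℝ) + (p + 2 : ℕ))) -
        (m (k + (p + 2)) + 1 - c * (((k + (p + 2) : ℕ) : ℝ) + (p + 2 : ℕ)))) ^ 2 := by
  have h1 := h.mrec k
  have h2 := h.qrec k
  set M := m (k + (p + 2)) with hM
  have hrefl : ∑ i ∈ range (k + 1), m (k - i) = ∑ i ∈ range (k + 1), m i := by
    have := sum_range_reflect m (k + 1)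
    rw [← this]
    apply sum_congr rfl
    intro i _
    congr 1
  have hrefl2 : ∑ i ∈ range (k + 1), m (k - i) ^ 2 = ∑ i ∈ range (k + 1), m i ^ 2 := by
    have := sum_range_reflect (fun i => m i ^ 2) (k + 1)
    rw [← this]
    apply sum_congr rfl
    intro i _
    congr 1
  have e : ∑ i ∈ range (k + 1), ((m i + 1 - c * ((i : ℝ) + (p + 2 : ℕ))) +
        (m (k - i) + 1 - c * (((k - i : ℕ) : ℝ) + (p + 2 : ℕ))) -
        (M + 1 - c * (((k + (p + 2) : ℕ) : ℝ) + (p + 2 : ℕ)))) ^ 2 =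
      ∑ i ∈ range (k + 1), (m i ^ 2 + m (k - i) ^ 2 + 2 * (m i * m (k - i)) +
        2 * (1 - M) * m i + 2 * (1 - M) * m (k - i) + (1 - M) ^ 2) := by
    apply sum_congr rfl
    intro i hi
    have hik : i ≤ k := by rw [mem_range] at hi; omega
    rw [Nat.cast_sub hik]
    push_cast
    ring
  rw [e, sum_add_distrib, sum_add_distrib, sum_add_distrib, sum_add_distrib, sum_add_distrib,
    hrefl2, ← mul_sum, ← mul_sum, ← mul_sum, hrefl, sum_sub_distrib, sum_const, card_range,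
    nsmul_eq_mul]
  push_cast
  linear_combination h2 - 2 * M * h1

theorem sum_inv_sq (k : ℕ) : ∑ i ∈ range (k + 1), 1 / ((i : ℝ) + 1) ^ 2 ≤ 2 := by
  have : ∑ i ∈ range (k + 1), 1 / ((i : ℝ) + 1) ^ 2 ≤ 2 - 1 / ((k : ℝ) + 1) := by
    induction k with
    | zero => norm_num
    | succ k ih =>
      rw [sum_range_succ]
      push_cast
      have h1 : 1 / ((k : ℝ) + 1 + 1) ^ 2 ≤ 1 / ((k : ℝ) + 1) - 1 / ((k : ℝ) + 1 + 1) := by
        rw [div_sub_div _ _ (by positivity) (by positivity), div_le_div_iff₀ (by positivity)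
          (by positivity)]
        have : (0 : ℝ) ≤ k := by positivity
        nlinarith
      linarith
  have h2 : 0 ≤ 1 / ((k : ℝ) + 1) := by positivity
  linarith

/-- The variance has a linear asymptotic. -/
theorem var_conv {p : ℕ} {m q : ℕ → ℝ} (h : Mom (p + 2) m q) {c K : ℝ}
    (hc : ∀ n : ℕ, |m n + 1 - c * ((n : ℝ) + (p + 2 : ℕ))| ≤ K / ((n : ℝ) + 1)) :
    ∃ v : ℝ, Tendsto (fun n : ℕ => (q n - m n ^ 2) / ((n : ℝ) + (p + 2 : ℕ))) atTop (𝓝 v) := by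
  refine conv_forced (y := fun n => q n - m n ^ 2) (by omega : 1 ≤ p + 2) (B := 15 * K ^ 2)
    (b := fun k => ∑ i ∈ range (k + 1), ((m i + 1 - c * ((i : ℝ) + (p + 2 : ℕ))) +
        (m (k - i) + 1 - c * (((k - i : ℕ) : ℝ) + (p + 2 : ℕ))) -
        (m (k + (p + 2)) + 1 - c * (((k + (p + 2) : ℕ) : ℝ) + (p + 2 : ℕ)))) ^ 2)
    (fun k => var_rec h c k) ?_
  intro k
  have hsq : ∀ n : ℕ, (m n + 1 - c * ((n : ℝ) + (p + 2 : ℕ))) ^ 2 ≤ K ^ 2 * (1 / ((n : ℝ) + 1) ^ 2) := by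
    intro n
    have h1 := hc n
    rw [← sq_abs]
    calc |m n + 1 - c * ((n : ℝ) + (p + 2 : ℕ))| ^ 2 ≤ (K / ((n : ℝ) + 1)) ^ 2 :=
          pow_le_pow_left₀ (abs_nonneg _) h1 2
      _ = _ := by rw [div_pow]; ring
  rw [abs_of_nonneg (sum_nonneg (fun i _ => sq_nonneg _))]
  have h3 : ∀ i ∈ range (k + 1), ((m i + 1 - c * ((i : ℝ) + (p + 2 : ℕ))) +
        (m (k - i) + 1 - c * (((k - i : ℕ) : ℝ) + (p + 2 : ℕ))) -
        (m (k + (p + 2)) + 1 - c * (((k + (p + 2) : ℕ) : ℝ) + (p + 2 : ℕ)))) ^ 2 ≤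
      3 * K ^ 2 * (1 / ((i : ℝ) + 1) ^ 2) + 3 * K ^ 2 * (1 / (((k - i : ℕ) : ℝ) + 1) ^ 2) +
        3 * K ^ 2 * (1 / ((k : ℝ) + 1)) ^ 2 := by
    intro i _
    have a1 := hsq i
    have a2 := hsq (k - i)
    have a3 := hsq (k + (p + 2))
    have a4 : K ^ 2 * (1 / (((k + (p + 2) : ℕ) : ℝ) + 1) ^ 2) ≤ K ^ 2 * (1 / ((k : ℝ) + 1)) ^ 2 := by
      apply mul_le_mul_of_nonneg_left _ (sq_nonneg _)
      rw [div_pow, one_pow]
      apply one_div_le_one_div_of_le (by positivity)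
      apply pow_le_pow_left₀ (by positivity)
      push_cast
      have : (0 : ℝ) ≤ p := by positivity
      linarith
    set e1 := m i + 1 - c * ((i : ℝ) + (p + 2 : ℕ))
    set e2 := m (k - i) + 1 - c * (((k - i : ℕ) : ℝ) + (p + 2 : ℕ))
    set e3 := m (k + (p + 2)) + 1 - c * (((k + (p + 2) : ℕ) : ℝ) + (p + 2 : ℕ))
    have : (e1 + e2 - e3) ^ 2 ≤ 3 * (e1 ^ 2 + e2 ^ 2 + e3 ^ 2) := by
      nlinarith [sq_nonneg (e1 - e2), sq_nonneg (e1 + e3), sq_nonneg (e2 + e3)]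
    linarith
  refine (sum_le_sum h3).trans ?_
  rw [sum_add_distrib, sum_add_distrib, ← mul_sum, ← mul_sum, sum_const, card_range, nsmul_eq_mul]
  have hr : ∑ i ∈ range (k + 1), 1 / (((k - i : ℕ) : ℝ) + 1) ^ 2 =
      ∑ i ∈ range (k + 1), 1 / ((i : ℝ) + 1) ^ 2 := by
    rw [← sum_range_reflect (fun i : ℕ => 1 / ((i : ℝ) + 1) ^ 2) (k + 1)]
    apply sum_congr rfl
    intro i _
    congr 3
  rw [hr]
  have h5 := sum_inv_sq k
  have h6 : 0 ≤ K ^ 2 := sq_nonneg K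
  have h7 : ((k + 1 : ℕ) : ℝ) * (3 * K ^ 2 * (1 / ((k : ℝ) + 1)) ^ 2) ≤ 3 * K ^ 2 := by
    have e : ((k + 1 : ℕ) : ℝ) * (3 * K ^ 2 * (1 / ((k : ℝ) + 1)) ^ 2) =
        3 * K ^ 2 * (1 / ((k : ℝ) + 1)) := by
      push_cast
      field_simp
    rw [e]
    have : 1 / ((k : ℝ) + 1) ≤ 1 := by
      rw [div_le_one (by positivity)]
      have : (0 : ℝ) ≤ k := by positivity
      linarith
    nlinarith
  nlinarith

theorem ratio_tend (p : ℕ) {a : ℕ → ℝ} {A : ℝ} (ha : ∀ n, |a n| ≤ A) :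
    Tendsto (fun n : ℕ => a n / ((n : ℝ) + (p + 2 : ℕ))) atTop (𝓝 0) := by
  have h1 : Tendsto (fun n : ℕ => A * (1 / ((n : ℝ) + 1))) atTop (𝓝 0) := by
    have := (tendsto_one_div_add_atTop_nhds_zero_nat (𝕜 := ℝ)).const_mul A
    rwa [mul_zero] at this
  apply squeeze_zero_norm _ h1
  intro n
  have hA : 0 ≤ A := (abs_nonneg _).trans (ha 0)
  rw [Real.norm_eq_abs, abs_div, abs_of_pos (by positivity : (0 : ℝ) < (n : ℝ) + (p + 2 : ℕ)),
    mul_one_div]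
  apply div_le_div₀ hA (ha n) (by positivity)
  push_cast
  have : (0 : ℝ) ≤ p := by positivity
  linarith

end Q292.RSA
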