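import Pool.Agent.Q292.RSA.Lim

/-! The asymptotic variance. -/

set_option autoImplicit false

namespace Q292.RSA

open Finset Filter Topology

theorem htwo {x : ℝ} (hx : |x| < 1) :
    HasSum (fun n : ℕ => ((n : ℝ) + 1) * ((n : ℝ) + 2) * x ^ n) (2 / (1 - x) ^ 3) := by
  have h := (hasSum_choose_mul_geometric_of_norm_lt_one 2 (r := x) (by simpa using hx)).mul_left 2
  have e : (2 : ℝ) * (1 / (1 - x) ^ (2 + 1)) = 2 / (1 - x) ^ 3 := by ring
  rw [e] at h
  refine h.congr_fun (fun n => ?_)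
  rw [Nat.cast_choose_two]
  push_cast
  ring

theorem hsq_series (c a : ℝ) {x : ℝ} (hx : |x| < 1) :
    HasSum (fun n : ℕ => (c * n + a) ^ 2 * x ^ n)
      (c ^ 2 * (2 / (1 - x) ^ 3) + (2 * a * c - 3 * c ^ 2) * (1 / (1 - x) ^ 2) +
        (a - c) ^ 2 * (1 - x)⁻¹) := by
  have h := (((htwo hx).mul_left (c ^ 2)).add ((hone hx).mul_left (2 * a * c - 3 * c ^ 2))).add
    ((hasSum_geometric_of_abs_lt_one hx).mul_left ((a - c) ^ 2))
  refine h.congr_fun (fun n => ?_)
  ring

/-- The function whose singular part is subtracted. -/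
noncomputable def F (p : ℕ) (x : ℝ) : ℝ :=
  x ^ (p + 1) * (x ^ (p + 1) * Real.exp (-(2 * S p x)) * J p x) ^ 2

noncomputable def cc (p : ℕ) : ℝ := Real.exp (-(2 * S p 1)) * J p 1

theorem F_one (p : ℕ) : F p 1 = cc p ^ 2 := by
  unfold F cc; simp

theorem der_F (p : ℕ) : HasDerivAt (F p) (2 * cc p - (p + 1) * cc p ^ 2) 1 := by
  have d2 : HasDerivAt (fun x => Real.exp (-(2 * S p x)))
      (Real.exp (-(2 * S p 1)) * (-(2 * G p 1))) 1 := ((der_S p 1).const_mul 2).fun_neg.exp
  have d1 := hasDerivAt_pow (p + 1) (1 : ℝ)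
  have d := d1.fun_mul (((d1.fun_mul d2).fun_mul (der_J p 1)).fun_pow 2)
  refine d.congr_deriv ?_
  rw [G_one]
  have hE : Real.exp (-(2 * S p 1)) * Real.exp (2 * S p 1) = 1 := by
    rw [← Real.exp_add]; simp
  have hc : cc p = Real.exp (-(2 * S p 1)) * J p 1 := rfl
  simp only [one_pow, one_mul, mul_one]
  push_cast
  rw [hE, hc]
  ring

theorem main_lim {p : ℕ} {m q : ℕ → ℝ} (h : Mom (p + 2) m q) :
    Tendsto (fun n : ℕ => (q n - m n ^ 2) / ((n : ℝ) + (p + 2 : ℕ))) atTop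
      (𝓝 (cc p ^ 2 - cc p + Real.exp (-(2 * S p 1)) * I p 1)) := by
  obtain ⟨c, K, hK, hc⟩ := mean_line h
  obtain ⟨v, hv⟩ := var_conv h hc
  set r : ℝ := ((p + 2 : ℕ) : ℝ) with hr
  have hr1 : 1 ≤ r := by rw [hr]; push_cast; have : (0 : ℝ) ≤ p := by positivity
                         linarith
  -- the mean
  have hK' : ∀ n : ℕ, |m n + 1 - c * ((n : ℝ) + r)| ≤ K := by
    intro n
    refine (hc n).trans ?_
    rw [div_le_iff₀ (by positivity)]
    have : (0 : ℝ) ≤ n := by positivity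
    nlinarith
  have hm : Tendsto (fun n : ℕ => m n / ((n : ℝ) + r)) atTop (𝓝 c) := by
    have h1 : Tendsto (fun n : ℕ => (m n - c * ((n : ℝ) + r)) / ((n : ℝ) + r)) atTop (𝓝 0) := by
      apply ratio_tend p (A := K + 1)
      intro n
      have := hK' n
      rw [abs_le] at this ⊢
      constructor <;> linarith [this.1, this.2]
    have h2 := h1.add_const c
    rw [zero_add] at h2
    refine h2.congr (fun n => ?_)
    have : (n : ℝ) + r ≠ 0 := by positivity
    field_simp
    ring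
  have A1 := abel (by omega : 1 ≤ p + 2) hm
  have A2 := abel (by omega : 1 ≤ p + 2) hv
  -- the error of the square of the mean
  set a : ℕ → ℝ := fun n => m n ^ 2 - (c * n + (c * r - 1)) ^ 2 with ha
  have hab : ∀ n, |a n| ≤ 2 * (|c| * r + 1) * K + K ^ 2 := by
    intro n
    have e : a n = 2 * (c * ((n : ℝ) + r) - 1) * (m n + 1 - c * ((n : ℝ) + r)) +
        (m n + 1 - c * ((n : ℝ) + r)) ^ 2 := by
      rw [ha]; ring
    rw [e]
    have hn : (0 : ℝ) ≤ n := by positivity
    have h1 : |c * ((n : ℝ) + r) - 1| ≤ (|c| * r + 1) * ((n : ℝ) + 1) := by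
      calc |c * ((n : ℝ) + r) - 1| ≤ |c * ((n : ℝ) + r)| + |(1 : ℝ)| := abs_sub _ _
        _ = |c| * ((n : ℝ) + r) + 1 := by
            rw [abs_mul, abs_one, abs_of_nonneg (by positivity : (0 : ℝ) ≤ (n : ℝ) + r)]
        _ ≤ (|c| * r + 1) * ((n : ℝ) + 1) := by
            have h5 : (n : ℝ) + r ≤ r * ((n : ℝ) + 1) := by nlinarith
            have h6 : |c| * ((n : ℝ) + r) ≤ |c| * (r * ((n : ℝ) + 1)) :=
              mul_le_mul_of_nonneg_left h5 (abs_nonneg _)
            nlinarith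
    refine (abs_add_le _ _).trans (add_le_add ?_ ?_)
    · rw [abs_mul, abs_mul, abs_of_pos (by norm_num : (0 : ℝ) < 2)]
      calc 2 * |c * ((n : ℝ) + r) - 1| * |m n + 1 - c * ((n : ℝ) + r)|
          ≤ 2 * ((|c| * r + 1) * ((n : ℝ) + 1)) * (K / ((n : ℝ) + 1)) := by
            apply mul_le_mul _ (hc n) (abs_nonneg _) (by positivity)
            linarith
        _ = 2 * (|c| * r + 1) * K := by field_simp
    · rw [abs_pow]
      exact pow_le_pow_left₀ (abs_nonneg _) (hK' n) 2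
  have A3 := abel (by omega : 1 ≤ p + 2) (ratio_tend p hab)
  -- the interval
  have hIoo : Set.Ioo (0 : ℝ) 1 ∈ 𝓝[<] (1 : ℝ) := Ioo_mem_nhdsLT (by norm_num)
  have tend : ∀ {f : ℝ → ℝ}, Continuous f → Tendsto f (𝓝[<] 1) (𝓝 (f 1)) := fun hf =>
    (hf.tendsto 1).mono_left nhdsWithin_le_nhds
  -- the value of c
  have hcc : c = cc p := by
    have h1 : Tendsto (fun x : ℝ => x ^ (p + 1) * Real.exp (-(2 * S p x)) * J p x) (𝓝[<] 1)
        (𝓝 (1 ^ (p + 1) * Real.exp (-(2 * S p 1)) * J p 1)) := by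
      apply tend (f := fun x : ℝ => x ^ (p + 1) * Real.exp (-(2 * S p x)) * J p x)
      have := cont_S p
      have := cont_J p
      fun_prop
    rw [one_pow, one_mul] at h1
    apply tendsto_nhds_unique A1
    refine h1.congr' ?_
    filter_upwards [hIoo] with x hx
    have hxa : |x| < 1 := by rw [abs_of_pos hx.1]; exact hx.2
    rw [shift h.m0 h.am hxa, ← Y_closed h hx.1.le hx.2, Real.exp_neg]
    have := (Real.exp_pos (2 * S p x)).ne'
    field_simp
  -- the value of v
  have hmain : Tendsto (fun x : ℝ => x ^ (p + 1) * Real.exp (-(2 * S p x)) * (J p x + I p x) -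
      2 * ((F p x - F p 1) / (x - 1)) - (2 * (c * r - 1) * c - 3 * c ^ 2) -
      (1 - x) * ((c * r - 1) - c) ^ 2 - (1 - x) ^ 2 * ∑' n : ℕ, a n * x ^ n) (𝓝[<] 1)
      (𝓝 (1 ^ (p + 1) * Real.exp (-(2 * S p 1)) * (J p 1 + I p 1) -
        2 * (2 * cc p - (p + 1) * cc p ^ 2) - (2 * (c * r - 1) * c - 3 * c ^ 2) -
        (1 - 1) * ((c * r - 1) - c) ^ 2 - 0)) := by
    apply Tendsto.sub _ A3
    apply Tendsto.sub
    · apply Tendsto.sub_const
      apply Tendsto.sub
      · apply tend (f := fun x : ℝ => x ^ (p + 1) * Real.exp (-(2 * S p x)) * (J p x + I p x))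
        have := cont_S p
        have := cont_J p
        have := cont_I p
        fun_prop
      · apply Tendsto.const_mul
        have h1 := hasDerivAt_iff_tendsto_slope.1 (der_F p)
        have h2 := h1.mono_left (nhdsWithin_mono (1 : ℝ) (fun x (hx : x < 1) => ne_of_lt hx))
        refine h2.congr (fun x => ?_)
        rw [slope_def_field]
    · apply tend (f := fun x : ℝ => (1 - x) * ((c * r - 1) - c) ^ 2)
      fun_prop
  have hv' : v = 1 ^ (p + 1) * Real.exp (-(2 * S p 1)) * (J p 1 + I p 1) -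
        2 * (2 * cc p - (p + 1) * cc p ^ 2) - (2 * (c * r - 1) * c - 3 * c ^ 2) -
        (1 - 1) * ((c * r - 1) - c) ^ 2 - 0 := by
    apply tendsto_nhds_unique A2
    refine hmain.congr' ?_
    filter_upwards [hIoo] with x hx
    have hxa : |x| < 1 := by rw [abs_of_pos hx.1]; exact hx.2
    have hne : 1 - x ≠ 0 := by linarith [hx.2]
    have s1 := summable_of_bound h.aq hxa
    have s2 := hsq_series c (c * r - 1) hxa
    have s3 : Summable (fun n => a n * x ^ n) := by
      apply summable_of_bound (A := 2 * (|c| * r + 1) * K + K ^ 2) _ hxa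
      intro n
      refine (hab n).trans ?_
      have h0 : 0 ≤ 2 * (|c| * r + 1) * K + K ^ 2 := (abs_nonneg _).trans (hab n)
      have hn0 : (0 : ℝ) ≤ n := by positivity
      exact le_mul_of_one_le_right h0 (by nlinarith)
    have e1 : ∑' n : ℕ, (q n - m n ^ 2) * x ^ n = ∑' n : ℕ, q n * x ^ n -
        (c ^ 2 * (2 / (1 - x) ^ 3) + (2 * (c * r - 1) * c - 3 * c ^ 2) * (1 / (1 - x) ^ 2) +
        ((c * r - 1) - c) ^ 2 * (1 - x)⁻¹) - ∑' n : ℕ, a n * x ^ n := by
      rw [← s2.tsum_eq, ← s1.tsum_sub s2.summable, ← (s1.sub s2.summable).tsum_sub s3]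
      apply tsum_congr
      intro n
      rw [ha]; ring
    rw [e1, shift h.q0 h.aq hxa, F_one, ← hcc]
    have hZ := Z_closed h hx.1.le hx.2
    have hE := (Real.exp_pos (2 * S p x)).ne'
    rw [Real.exp_neg] at hZ ⊢
    have hF : F p x = x ^ (p + 1) * (x ^ (p + 1) * (Real.exp (2 * S p x))⁻¹ * J p x) ^ 2 := by
      unfold F; rw [Real.exp_neg]
    rw [hF]
    set E := Real.exp (2 * S p x) with hEd
    have hZ' : Y p q x = (J p x + 2 * x ^ (2 * p + 2) * E⁻¹ * J p x ^ 2 / (1 - x) + I p x) /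
        ((1 - x) ^ 2 * E) := by
      rw [eq_div_iff (by positivity), ← hZ]; ring
    rw [hZ']
    have hne2 : x - 1 ≠ 0 := by linarith [hx.2]
    have e5 : x = 1 - (1 - x) := by ring
    generalize hy : 1 - x = y at *
    have e6 : x - 1 = -y := by linarith
    rw [e6]
    field_simp
    ring
  have hfin : v = cc p ^ 2 - cc p + Real.exp (-(2 * S p 1)) * I p 1 := by
    rw [hv', hcc, hr]
    have : Real.exp (-(2 * S p 1)) * J p 1 = cc p := rfl
    push_cast
    simp only [one_pow, one_mul, sub_self, zero_mul, sub_zero]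
    rw [mul_add, this]
    ring
  rw [← hfin]
  exact hv

end Q292.RSA
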