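import Pool.Agent.Q292.RSA.Gen

/-! The generating functions of the first two moments in closed form. -/

set_option autoImplicit false

namespace Q292.RSA

open Finset Filter Topology

theorem sum_id (k : ℕ) : ∑ i ∈ range (k + 1), (i : ℝ) = (k : ℝ) * (k + 1) / 2 := by
  induction k with
  | zero => simp
  | succ k ih =>
    rw [sum_range_succ, ih]
    push_cast
    ring

theorem Mom.bm {r : ℕ} {m q : ℕ → ℝ} (h : Mom r m q) : ∀ n, 0 ≤ m n ∧ m n ≤ n := by
  intro n
  induction n using Nat.strong_induction_on with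
  | _ n ih =>
    by_cases hn : n < r
    · rw [h.m0 n hn]; exact ⟨le_refl _, by positivity⟩
    · obtain ⟨k, rfl⟩ : ∃ k, n = k + r := ⟨n - r, by omega⟩
      have hr := h.hr
      have h1 := h.mrec k
      have h2 : 0 ≤ ∑ i ∈ range (k + 1), m i := by
        apply sum_nonneg
        intro i hi
        exact (ih i (by rw [mem_range] at hi; omega)).1
      have h3 : ∑ i ∈ range (k + 1), m i ≤ (k : ℝ) * (k + 1) / 2 := by
        rw [← sum_id]
        apply sum_le_sum
        intro i hi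
        exact (ih i (by rw [mem_range] at hi; omega)).2
      have hk : (0 : ℝ) < (k : ℝ) + 1 := by positivity
      constructor
      · by_contra hcon
        push Not at hcon
        have := mul_neg_of_pos_of_neg hk hcon
        linarith
      · have h4 : ((k : ℝ) + 1) * m (k + r) ≤ ((k : ℝ) + 1) * ((k : ℝ) + 1) := by
          rw [h1]; linarith
        have h5 := le_of_mul_le_mul_left h4 hk
        push_cast
        have : (2 : ℝ) ≤ r := by exact_mod_cast hr
        linarith

theorem Mom.bq {r : ℕ} {m q : ℕ → ℝ} (h : Mom r m q) : ∀ n, 0 ≤ q n ∧ q n ≤ (n : ℝ) ^ 2 := by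
  intro n
  induction n using Nat.strong_induction_on with
  | _ n ih =>
    by_cases hn : n < r
    · rw [h.q0 n hn]; exact ⟨le_refl _, by positivity⟩
    · obtain ⟨k, rfl⟩ : ∃ k, n = k + r := ⟨n - r, by omega⟩
      have hr := h.hr
      have h1 := h.qrec k
      have hm0 : 0 ≤ ∑ i ∈ range (k + 1), m i := sum_nonneg (fun i _ => (h.bm i).1)
      have hq0 : 0 ≤ ∑ i ∈ range (k + 1), q i := by
        apply sum_nonneg
        intro i hi
        exact (ih i (by rw [mem_range] at hi; omega)).1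
      have hc0 : 0 ≤ ∑ i ∈ range (k + 1), m i * m (k - i) :=
        sum_nonneg (fun i _ => mul_nonneg (h.bm i).1 (h.bm _).1)
      have h3 : 4 * ∑ i ∈ range (k + 1), m i + 2 * ∑ i ∈ range (k + 1), q i +
          2 * ∑ i ∈ range (k + 1), m i * m (k - i) ≤ (4 + 2 * (k : ℝ)) * ((k : ℝ) * (k + 1) / 2) := by
        rw [← sum_id, mul_sum, mul_sum, mul_sum, mul_sum, ← sum_add_distrib, ← sum_add_distrib]
        apply sum_le_sum
        intro i hi
        have hik : i ≤ k := by rw [mem_range] at hi; omega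
        have a1 := (h.bm i).2
        have a2 := (ih i (by rw [mem_range] at hi; omega)).2
        have a3 : m i * m (k - i) ≤ (i : ℝ) * ((k : ℝ) - i) := by
          have := (h.bm (k - i)).2
          rw [Nat.cast_sub hik] at this
          exact mul_le_mul a1 this (h.bm _).1 (by positivity)
        nlinarith
      have hk : (0 : ℝ) < (k : ℝ) + 1 := by positivity
      constructor
      · by_contra hcon
        push Not at hcon
        have := mul_neg_of_pos_of_neg hk hcon
        linarith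
      · have h4 : ((k : ℝ) + 1) * q (k + r) ≤ ((k : ℝ) + 1) * ((k : ℝ) + 1) ^ 2 := by
          rw [h1]; nlinarith
        have h5 := le_of_mul_le_mul_left h4 hk
        push_cast
        have : (2 : ℝ) ≤ r := by exact_mod_cast hr
        have h6 : ((k : ℝ) + 1) ^ 2 ≤ ((k : ℝ) + r) ^ 2 := by
          apply pow_le_pow_left₀ hk.le; linarith
        linarith

theorem Mom.am {r : ℕ} {m q : ℕ → ℝ} (h : Mom r m q) (n : ℕ) : |m n| ≤ 1 * ((n : ℝ) + 1) ^ 2 := by
  rw [abs_of_nonneg (h.bm n).1]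
  have := (h.bm n).2
  have : (0 : ℝ) ≤ n := by positivity
  nlinarith

theorem Mom.aq {r : ℕ} {m q : ℕ → ℝ} (h : Mom r m q) (n : ℕ) : |q n| ≤ 1 * ((n : ℝ) + 1) ^ 2 := by
  rw [abs_of_nonneg (h.bq n).1]
  have := (h.bq n).2
  have : (0 : ℝ) ≤ n := by positivity
  nlinarith

theorem Mom.ams {r : ℕ} {m q : ℕ → ℝ} (h : Mom r m q) (n : ℕ) :
    |m (n + r)| ≤ ((r : ℝ) + 1) ^ 2 * ((n : ℝ) + 1) ^ 2 := by
  refine (h.am _).trans ?_
  rw [one_mul, ← mul_pow]
  apply pow_le_pow_left₀ (by positivity)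
  push_cast
  have h1 : (0 : ℝ) ≤ n := by positivity
  have h2 : (0 : ℝ) ≤ r := by positivity
  nlinarith [mul_nonneg h1 h2]

theorem Mom.aqs {r : ℕ} {m q : ℕ → ℝ} (h : Mom r m q) (n : ℕ) :
    |q (n + r)| ≤ ((r : ℝ) + 1) ^ 2 * ((n : ℝ) + 1) ^ 2 := by
  refine (h.aq _).trans ?_
  rw [one_mul, ← mul_pow]
  apply pow_le_pow_left₀ (by positivity)
  push_cast
  have h1 : (0 : ℝ) ≤ n := by positivity
  have h2 : (0 : ℝ) ≤ r := by positivity
  nlinarith [mul_nonneg h1 h2]

/-- Cauchy product of power series. -/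
theorem cauchy {a b : ℕ → ℝ} {A B : ℝ} (ha : ∀ n, |a n| ≤ A * ((n : ℝ) + 1) ^ 2)
    (hb : ∀ n, |b n| ≤ B * ((n : ℝ) + 1) ^ 2) {x : ℝ} (hx : |x| < 1) :
    HasSum (fun n : ℕ => (∑ k ∈ range (n + 1), a k * b (n - k)) * x ^ n)
      ((∑' n : ℕ, a n * x ^ n) * ∑' n : ℕ, b n * x ^ n) := by
  have h1 := summable_norm_of_bound ha hx
  have h2 := summable_norm_of_bound hb hx
  have h3 := (summable_norm_sum_mul_range_of_summable_norm h1 h2).of_norm
  have h4 := tsum_mul_tsum_eq_tsum_sum_range_of_summable_norm h1 h2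
  have e : (fun n : ℕ => (∑ k ∈ range (n + 1), a k * b (n - k)) * x ^ n) =
      fun n : ℕ => ∑ k ∈ range (n + 1), a k * x ^ k * (b (n - k) * x ^ (n - k)) := by
    funext n
    rw [sum_mul]
    apply sum_congr rfl
    intro k hk
    have hkn : k ≤ n := by rw [mem_range] at hk; omega
    have : x ^ n = x ^ k * x ^ (n - k) := by rw [← pow_add]; congr 1; omega
    rw [this]; ring
  rw [e, h4]
  exact h3.hasSum

theorem cauchy_one {a : ℕ → ℝ} {A : ℝ} (ha : ∀ n, |a n| ≤ A * ((n : ℝ) + 1) ^ 2)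
    {x : ℝ} (hx : |x| < 1) :
    HasSum (fun n : ℕ => (∑ k ∈ range (n + 1), a k) * x ^ n)
      ((∑' n : ℕ, a n * x ^ n) * (1 / (1 - x))) := by
  have h := cauchy (b := fun _ => 1) (B := 1) ha (fun n => by
    rw [abs_one, one_mul]
    have : (0 : ℝ) ≤ n := by positivity
    nlinarith) hx
  have e : ∑' n : ℕ, (1 : ℝ) * x ^ n = 1 / (1 - x) := by
    simp only [one_mul]
    rw [tsum_geometric_of_abs_lt_one hx, one_div]
  rw [e] at h
  refine h.congr_fun ?_ 
  intro n
  simp

theorem hone {x : ℝ} (hx : |x| < 1) :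
    HasSum (fun n : ℕ => ((n : ℝ) + 1) * x ^ n) (1 / (1 - x) ^ 2) := by
  have := hasSum_choose_mul_geometric_of_norm_lt_one 1 (r := x) (by simpa using hx)
  simpa [Nat.choose_one_right] using this

end Q292.RSA
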