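import Pool.Agent.Q292.RSA.Ode

/-! The differential equations for the generating functions. -/

set_option autoImplicit false

namespace Q292.RSA

open Finset Filter Topology

/-- `S(x) = ∑_{k=1}^{r-1} x^k / k`, where `r = p + 2`. -/
noncomputable def S (p : ℕ) (x : ℝ) : ℝ := ∑ k ∈ range (p + 1), x ^ (k + 1) / ((k : ℝ) + 1)

/-- `G = S'`. -/
noncomputable def G (p : ℕ) (x : ℝ) : ℝ := ∑ k ∈ range (p + 1), x ^ k

noncomputable def H (p : ℕ) (x : ℝ) : ℝ := ∑ k ∈ range (p + 1), ((p : ℝ) + 1 - k) * x ^ k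

noncomputable def J (p : ℕ) (x : ℝ) : ℝ := ∫ t in (0 : ℝ)..x, Real.exp (2 * S p t)

noncomputable def R (p : ℕ) (x : ℝ) : ℝ :=
  4 * x ^ (p + 1) * G p x * J p x -
    4 * x ^ (2 * p + 1) * Real.exp (-(2 * S p x)) * J p x ^ 2 * H p x

noncomputable def I (p : ℕ) (x : ℝ) : ℝ := ∫ t in (0 : ℝ)..x, R p t

noncomputable def Y (p : ℕ) (m : ℕ → ℝ) (x : ℝ) : ℝ := ∑' k : ℕ, m (k + (p + 2)) * x ^ (k + 1)

theorem cont_S (p : ℕ) : Continuous (S p) := by unfold S; fun_prop
theorem cont_G (p : ℕ) : Continuous (G p) := by unfold G; fun_prop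
theorem cont_H (p : ℕ) : Continuous (H p) := by unfold H; fun_prop

theorem der_S (p : ℕ) (x : ℝ) : HasDerivAt (S p) (G p x) x := by
  unfold S G
  apply HasDerivAt.fun_sum
  intro k _
  have := (hasDerivAt_pow (k + 1) x).div_const ((k : ℝ) + 1)
  refine this.congr_deriv ?_
  rw [Nat.add_sub_cancel]
  push_cast
  have : (k : ℝ) + 1 ≠ 0 := by positivity
  field_simp

theorem G_eq (p : ℕ) (x : ℝ) : (1 - x) * G p x = 1 - x ^ (p + 1) := by
  unfold G
  exact mul_neg_geom_sum x (p + 1)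

theorem G_one (p : ℕ) : G p 1 = p + 1 := by
  unfold G; simp

theorem H_eq (p : ℕ) (x : ℝ) : (1 - x) * H p x = (p + 1) - x * G p x := by
  unfold H G
  induction p with
  | zero => simp
  | succ p ih =>
    rw [sum_range_succ, sum_range_succ (fun k => x ^ k)]
    have e : ∑ k ∈ range (p + 1), (((p + 1 : ℕ) : ℝ) + 1 - k) * x ^ k =
        ∑ k ∈ range (p + 1), ((p : ℝ) + 1 - k) * x ^ k + ∑ k ∈ range (p + 1), x ^ k := by
      rw [← sum_add_distrib]
      apply sum_congr rfl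
      intro k _
      push_cast
      ring
    rw [e, mul_add, mul_add, ih, mul_neg_geom_sum]
    push_cast
    ring

theorem der_J (p : ℕ) (x : ℝ) : HasDerivAt (J p) (Real.exp (2 * S p x)) x := by
  have hc : Continuous (fun t => Real.exp (2 * S p t)) := by
    have := cont_S p
    fun_prop
  exact (hc.integral_hasStrictDerivAt 0 x).hasDerivAt

theorem cont_J (p : ℕ) : Continuous (J p) :=
  continuous_iff_continuousAt.2 (fun x => (der_J p x).continuousAt)

theorem cont_R (p : ℕ) : Continuous (R p) := by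
  have h1 := cont_S p
  have h2 := cont_G p
  have h3 := cont_H p
  have h4 := cont_J p
  unfold R
  fun_prop

theorem der_I (p : ℕ) (x : ℝ) : HasDerivAt (I p) (R p x) x :=
  ((cont_R p).integral_hasStrictDerivAt 0 x).hasDerivAt

theorem cont_I (p : ℕ) : Continuous (I p) :=
  continuous_iff_continuousAt.2 (fun x => (der_I p x).continuousAt)

theorem J_zero (p : ℕ) : J p 0 = 0 := by unfold J; simp
theorem I_zero (p : ℕ) : I p 0 = 0 := by unfold I; simp
theorem Y_zero (p : ℕ) (m : ℕ → ℝ) : Y p m 0 = 0 := by unfold Y; simp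

theorem shift {p : ℕ} {m : ℕ → ℝ} (h0 : ∀ n, n < p + 2 → m n = 0) {A : ℝ}
    (ha : ∀ n, |m n| ≤ A * ((n : ℝ) + 1) ^ 2) {x : ℝ} (hx : |x| < 1) :
    ∑' n : ℕ, m n * x ^ n = x ^ (p + 1) * Y p m x := by
  have hs := summable_of_bound ha hx
  rw [← hs.sum_add_tsum_nat_add (p + 2), sum_eq_zero, zero_add]
  · unfold Y
    rw [← tsum_mul_left]
    apply tsum_congr
    intro n
    ring
  · intro i hi
    rw [h0 i (mem_range.1 hi), zero_mul]

theorem der_Y {p : ℕ} {m q : ℕ → ℝ} (h : Mom (p + 2) m q) {x : ℝ} (hx : |x| < 1) :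
    HasDerivAt (Y p m) (1 / (1 - x) ^ 2 + 2 * (x ^ (p + 1) * Y p m x * (1 / (1 - x)))) x := by
  have h1 := hasDerivAt_series (a := fun n => m (n + (p + 2))) h.ams hx
  refine h1.congr_deriv ?_
  have h2 := (hone hx).add ((cauchy_one h.am hx).mul_left 2)
  rw [shift h.m0 h.am hx] at h2
  rw [← h2.tsum_eq]
  apply tsum_congr
  intro k
  rw [h.mrec k]
  ring

theorem der_Z {p : ℕ} {m q : ℕ → ℝ} (h : Mom (p + 2) m q) {x : ℝ} (hx : |x| < 1) :
    HasDerivAt (Y p q) (1 / (1 - x) ^ 2 + 4 * (x ^ (p + 1) * Y p m x * (1 / (1 - x))) +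
      2 * (x ^ (p + 1) * Y p q x * (1 / (1 - x))) +
      2 * (x ^ (p + 1) * Y p m x * (x ^ (p + 1) * Y p m x))) x := by
  have h1 := hasDerivAt_series (a := fun n => q (n + (p + 2))) h.aqs hx
  refine h1.congr_deriv ?_
  have h2 := (((hone hx).add ((cauchy_one h.am hx).mul_left 4)).add
    ((cauchy_one h.aq hx).mul_left 2)).add ((cauchy h.am h.am hx).mul_left 2)
  rw [shift h.m0 h.am hx, shift h.q0 h.aq hx] at h2
  rw [← h2.tsum_eq]
  apply tsum_congr
  intro k
  rw [h.qrec k]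
  ring

/-- Two functions with the same derivative. -/
theorem eq_of_der {f g f' : ℝ → ℝ} (hf : ∀ x : ℝ, 0 ≤ x → x < 1 → HasDerivAt f (f' x) x)
    (hg : ∀ x : ℝ, 0 ≤ x → x < 1 → HasDerivAt g (f' x) x) (h0 : f 0 = g 0) {x : ℝ} (hx0 : 0 ≤ x)
    (hx : x < 1) : f x = g x := by
  have h1 : ∀ y ∈ Set.Icc (0 : ℝ) x, (fun y => f y - g y) y = (fun y => f y - g y) 0 := by
    apply constant_of_has_deriv_right_zero
    · intro y hy
      have hy1 : y < 1 := lt_of_le_of_lt hy.2 hx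
      exact ((hf y hy.1 hy1).continuousAt.sub (hg y hy.1 hy1).continuousAt).continuousWithinAt
    · intro y hy
      have hy1 : y < 1 := lt_trans hy.2 hx
      have := (hf y hy.1 hy1).sub (hg y hy.1 hy1)
      rw [sub_self] at this
      exact this.hasDerivWithinAt
  have := h1 x ⟨hx0, le_refl _⟩
  simp only [h0, sub_self] at this
  linarith

theorem Y_closed {p : ℕ} {m q : ℕ → ℝ} (h : Mom (p + 2) m q) {x : ℝ} (hx0 : 0 ≤ x)
    (hx : x < 1) : (1 - x) ^ 2 * Real.exp (2 * S p x) * Y p m x = J p x := by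
  apply eq_of_der (f := fun x => (1 - x) ^ 2 * Real.exp (2 * S p x) * Y p m x) (g := J p)
    (f' := fun x => Real.exp (2 * S p x)) _ (fun x _ _ => der_J p x) _ hx0 hx
  · intro x hx0 hx
    have hxa : |x| < 1 := by rw [abs_of_nonneg hx0]; exact hx
    have hne : 1 - x ≠ 0 := by linarith
    have d1 : HasDerivAt (fun x : ℝ => (1 - x) ^ 2) (2 * (1 - x) * (-1)) x := by
      have := ((hasDerivAt_id x).const_sub 1).pow 2
      refine this.congr_deriv ?_
      simp
    have d2 : HasDerivAt (fun x => Real.exp (2 * S p x)) (Real.exp (2 * S p x) * (2 * G p x)) x :=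
      ((der_S p x).const_mul 2).exp
    have d := (d1.fun_mul d2).fun_mul (der_Y h hxa)
    refine d.congr_deriv ?_
    have hG := G_eq p x
    have hG' : x ^ (p + 1) = 1 - (1 - x) * G p x := by linarith
    rw [hG']
    field_simp
    ring
  · rw [J_zero]; simp only [Y_zero]; ring

theorem alg (x E J G H X W P : ℝ) (hE : E ≠ 0) (hne : 1 - x ≠ 0) (hG : (1 - x) * G = 1 - X)
    (hH : (1 - x) * H = P - x * G) (hW : W * x = X * X) :
    E + (((2 * ((2 * P) * W)) * E⁻¹ + 2 * (X * X) * (E⁻¹ * (-(2 * G)))) * J ^ 2 +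
      2 * (X * X) * E⁻¹ * (2 * J * E)) * (1 - x) / (1 - x) ^ 2 -
      2 * (X * X) * E⁻¹ * J ^ 2 * (-1) / (1 - x) ^ 2 +
      (4 * X * G * J - 4 * W * E⁻¹ * J ^ 2 * H) =
    E * (1 + 4 * (1 - x) * X * (J / ((1 - x) ^ 2 * E)) +
      2 * (1 - x) ^ 2 * (X * (J / ((1 - x) ^ 2 * E))) ^ 2) := by
  have hy : ∃ y, y = 1 - x := ⟨_, rfl⟩
  obtain ⟨y, hy⟩ := hy
  rw [← hy] at hne hG hH ⊢
  have e : E + (((2 * ((2 * P) * W)) * E⁻¹ + 2 * (X * X) * (E⁻¹ * (-(2 * G)))) * J ^ 2 +
      2 * (X * X) * E⁻¹ * (2 * J * E)) * y / y ^ 2 -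
      2 * (X * X) * E⁻¹ * J ^ 2 * (-1) / y ^ 2 +
      (4 * X * G * J - 4 * W * E⁻¹ * J ^ 2 * H) -
    E * (1 + 4 * y * X * (J / (y ^ 2 * E)) +
      2 * y ^ 2 * (X * (J / (y ^ 2 * E))) ^ 2) =
    (E⁻¹ * J ^ 2 / y) * (-4 * W * (y * H - (P - x * G)) + 4 * G * (W * x - X * X)) +
      (4 * X * J / y) * (y * G - (1 - X)) := by
    field_simp
    ring
  rw [hG, hH, hW, sub_self, sub_self, sub_self, mul_zero, mul_zero, add_zero, mul_zero, mul_zero,
    add_zero] at e
  linarith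

theorem Z_closed {p : ℕ} {m q : ℕ → ℝ} (h : Mom (p + 2) m q) {x : ℝ} (hx0 : 0 ≤ x)
    (hx : x < 1) : (1 - x) ^ 2 * Real.exp (2 * S p x) * Y p q x =
      J p x + 2 * x ^ (2 * p + 2) * Real.exp (-(2 * S p x)) * J p x ^ 2 / (1 - x) + I p x := by
  apply eq_of_der (f := fun x => (1 - x) ^ 2 * Real.exp (2 * S p x) * Y p q x)
    (g := fun x => J p x + 2 * x ^ (2 * p + 2) * Real.exp (-(2 * S p x)) * J p x ^ 2 / (1 - x) +
      I p x)
    (f' := fun x => Real.exp (2 * S p x) * (1 + 4 * (1 - x) * x ^ (p + 1) * Y p m x +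
      2 * (1 - x) ^ 2 * (x ^ (p + 1) * Y p m x) ^ 2)) _ _ _ hx0 hx
  · intro x hx0 hx
    have hxa : |x| < 1 := by rw [abs_of_nonneg hx0]; exact hx
    have hne : 1 - x ≠ 0 := by linarith
    have d1 : HasDerivAt (fun x : ℝ => (1 - x) ^ 2) (2 * (1 - x) * (-1)) x := by
      have := ((hasDerivAt_id x).const_sub 1).pow 2
      refine this.congr_deriv ?_
      simp
    have d2 : HasDerivAt (fun x => Real.exp (2 * S p x)) (Real.exp (2 * S p x) * (2 * G p x)) x :=
      ((der_S p x).const_mul 2).exp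
    have d := (d1.fun_mul d2).fun_mul (der_Z h hxa)
    refine d.congr_deriv ?_
    have hG := G_eq p x
    have hG' : x ^ (p + 1) = 1 - (1 - x) * G p x := by linarith
    rw [hG']
    field_simp
    ring
  · intro x hx0 hx
    have hne : 1 - x ≠ 0 := by linarith
    have hY := Y_closed h hx0 hx
    have d1 : HasDerivAt (fun x : ℝ => 1 - x) (-1) x := (hasDerivAt_id x).const_sub 1
    have d2 : HasDerivAt (fun x => Real.exp (-(2 * S p x)))
        (Real.exp (-(2 * S p x)) * (-(2 * G p x))) x := ((der_S p x).const_mul 2).fun_neg.exp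
    have d3 : HasDerivAt (fun x : ℝ => 2 * x ^ (2 * p + 2)) (2 * ((2 * p + 2) * x ^ (2 * p + 1))) x := by
      have := (hasDerivAt_pow (2 * p + 2) x).const_mul 2
      refine this.congr_deriv ?_
      push_cast
      rfl
    have d4 : HasDerivAt (fun x => J p x ^ 2) (2 * J p x * Real.exp (2 * S p x)) x := by
      have := (der_J p x).fun_pow 2
      refine this.congr_deriv ?_
      simp
    have d := ((der_J p x).fun_add (((d3.fun_mul d2).fun_mul d4).fun_div d1 hne)).fun_add (der_I p x)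
    refine d.congr_deriv ?_
    have hE : Real.exp (-(2 * S p x)) = (Real.exp (2 * S p x))⁻¹ := Real.exp_neg _
    have hEpos := Real.exp_pos (2 * S p x)
    unfold R
    rw [hE]
    set E := Real.exp (2 * S p x) with hEdef
    have hY' : Y p m x = J p x / ((1 - x) ^ 2 * E) := by
      rw [eq_div_iff (by positivity)]
      rw [← hY]; ring
    have hE0 : E ≠ 0 := hEpos.ne'
    rw [hY']
    have e2 : x ^ (2 * p + 1) * x = x ^ (p + 1) * x ^ (p + 1) := by
      rw [← pow_add, ← pow_succ]; congr 1; ring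
    have key := alg x E (J p x) (G p x) (H p x) (x ^ (p + 1)) (x ^ (2 * p + 1)) (p + 1) hE0 hne
      (G_eq p x) (H_eq p x) e2
    linear_combination key
  · rw [J_zero, I_zero]; simp only [Y_zero]; ring

end Q292.RSA
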