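import Pool.Agent.Q292.RSA.Gen

/-! Moments of the number of accepted blocks, as functions of the set of available blocks. -/

set_option autoImplicit false

namespace Q292.RSA

open Finset

/-- The blocks (given by left end points) of `A` which stay available after the block `i` of length
`r` has been placed. -/
def rest (r : ℕ) (A : Finset ℕ) (i : ℕ) : Finset ℕ :=
  (A.erase i).filter (fun j => j + r ≤ i ∨ i + r ≤ j)

theorem mem_rest {r : ℕ} {A : Finset ℕ} {i j : ℕ} :
    j ∈ rest r A i ↔ (j ≠ i ∧ j ∈ A) ∧ (j + r ≤ i ∨ i + r ≤ j) := by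
  unfold rest; rw [mem_filter, mem_erase]

theorem card_rest {r : ℕ} {A : Finset ℕ} {i : ℕ} (hi : i ∈ A) : (rest r A i).card < A.card :=
  lt_of_le_of_lt (card_filter_le _ _) (card_erase_lt_of_mem hi)

/-- First moment. -/
noncomputable def M1 (r : ℕ) : ℕ → Finset ℕ → ℝ
  | 0, _ => 0
  | k + 1, A => (∑ i ∈ A, (1 + M1 r k (rest r A i))) / A.card

/-- Second moment. -/
noncomputable def M2 (r : ℕ) : ℕ → Finset ℕ → ℝ
  | 0, _ => 0
  | k + 1, A => (∑ i ∈ A, (1 + 2 * M1 r k (rest r A i) + M2 r k (rest r A i))) / A.card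

theorem M1_empty (r k : ℕ) : M1 r k ∅ = 0 := by cases k <;> simp [M1]
theorem M2_empty (r k : ℕ) : M2 r k ∅ = 0 := by cases k <;> simp [M2]

theorem M1_fuel (r : ℕ) : ∀ (k l : ℕ) (A : Finset ℕ), A.card ≤ k → A.card ≤ l →
    M1 r k A = M1 r l A := by
  intro k
  induction k with
  | zero =>
    intro l A hk _
    have : A = ∅ := card_eq_zero.1 (by omega)
    rw [this, M1_empty, M1_empty]
  | succ k ih =>
    intro l A hk hl
    cases l with
    | zero =>
      have : A = ∅ := card_eq_zero.1 (by omega)
      rw [this, M1_empty, M1_empty]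
    | succ l =>
      rw [M1, M1]
      congr 1
      apply sum_congr rfl
      intro i hi
      have := card_rest (r := r) hi
      rw [ih l (rest r A i) (by omega) (by omega)]

theorem M2_fuel (r : ℕ) : ∀ (k l : ℕ) (A : Finset ℕ), A.card ≤ k → A.card ≤ l →
    M2 r k A = M2 r l A := by
  intro k
  induction k with
  | zero =>
    intro l A hk _
    have : A = ∅ := card_eq_zero.1 (by omega)
    rw [this, M2_empty, M2_empty]
  | succ k ih =>
    intro l A hk hl
    cases l with
    | zero =>
      have : A = ∅ := card_eq_zero.1 (by omega)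
      rw [this, M2_empty, M2_empty]
    | succ l =>
      rw [M2, M2]
      congr 1
      apply sum_congr rfl
      intro i hi
      have := card_rest (r := r) hi
      rw [ih l (rest r A i) (by omega) (by omega), M1_fuel r k l (rest r A i) (by omega) (by omega)]

/-- The moments. -/
noncomputable def mom1 (r : ℕ) (A : Finset ℕ) : ℝ := M1 r A.card A
noncomputable def mom2 (r : ℕ) (A : Finset ℕ) : ℝ := M2 r A.card A

theorem mom1_empty (r : ℕ) : mom1 r ∅ = 0 := M1_empty _ _
theorem mom2_empty (r : ℕ) : mom2 r ∅ = 0 := M2_empty _ _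

theorem mom1_rec (r : ℕ) (A : Finset ℕ) :
    (A.card : ℝ) * mom1 r A = ∑ i ∈ A, (1 + mom1 r (rest r A i)) := by
  rcases A.eq_empty_or_nonempty with rfl | hA
  · simp
  · have hc : 0 < A.card := card_pos.2 hA
    obtain ⟨k, hk⟩ : ∃ k, A.card = k + 1 := ⟨A.card - 1, by omega⟩
    have hc' : (A.card : ℝ) ≠ 0 := by exact_mod_cast hc.ne'
    unfold mom1
    rw [hk, M1, ← hk, mul_div_cancel₀ _ hc']
    apply sum_congr rfl
    intro i hi
    have := card_rest (r := r) hi
    rw [M1_fuel r k (rest r A i).card (rest r A i) (by omega) (le_refl _)]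

theorem mom2_rec (r : ℕ) (A : Finset ℕ) :
    (A.card : ℝ) * mom2 r A = ∑ i ∈ A, (1 + 2 * mom1 r (rest r A i) + mom2 r (rest r A i)) := by
  rcases A.eq_empty_or_nonempty with rfl | hA
  · simp
  · have hc : 0 < A.card := card_pos.2 hA
    obtain ⟨k, hk⟩ : ∃ k, A.card = k + 1 := ⟨A.card - 1, by omega⟩
    have hc' : (A.card : ℝ) ≠ 0 := by exact_mod_cast hc.ne'
    unfold mom1 mom2
    rw [hk, M2, ← hk, mul_div_cancel₀ _ hc']
    apply sum_congr rfl
    intro i hi
    have := card_rest (r := r) hi
    rw [M1_fuel r k (rest r A i).card (rest r A i) (by omega) (le_refl _),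
      M2_fuel r k (rest r A i).card (rest r A i) (by omega) (le_refl _)]

/-- Two sets of blocks without interaction. -/
def Indep (r : ℕ) (A B : Finset ℕ) : Prop :=
  ∀ a ∈ A, ∀ b ∈ B, a ≠ b ∧ (a + r ≤ b ∨ b + r ≤ a)

theorem Indep.symm {r : ℕ} {A B : Finset ℕ} (h : Indep r A B) : Indep r B A := by
  intro b hb a ha
  have := h a ha b hb
  exact ⟨this.1.symm, this.2.symm⟩

theorem Indep.rest_left {r : ℕ} {A B : Finset ℕ} (h : Indep r A B) (i : ℕ) :
    Indep r (rest r A i) B := fun a ha b hb => h a (mem_rest.1 ha).1.2 b hb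

theorem Indep.disj {r : ℕ} {A B : Finset ℕ} (h : Indep r A B) : Disjoint A B := by
  rw [disjoint_left]
  intro a ha hb
  exact (h a ha a hb).1 rfl

theorem rest_union {r : ℕ} {A B : Finset ℕ} (h : Indep r A B) {i : ℕ} (hi : i ∈ A) :
    rest r (A ∪ B) i = rest r A i ∪ B := by
  ext j
  rw [mem_rest, mem_union, mem_union, mem_rest]
  constructor
  · rintro ⟨⟨h1, h2 | h2⟩, h3⟩
    · exact Or.inl ⟨⟨h1, h2⟩, h3⟩
    · exact Or.inr h2
  · rintro (⟨⟨h1, h2⟩, h3⟩ | h2)
    · exact ⟨⟨h1, Or.inl h2⟩, h3⟩
    · have := h i hi j h2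
      exact ⟨⟨this.1.symm, Or.inr h2⟩, this.2.symm⟩

theorem add1 (r : ℕ) : ∀ (N : ℕ) (A B : Finset ℕ), A.card + B.card ≤ N → Indep r A B →
    mom1 r (A ∪ B) = mom1 r A + mom1 r B := by
  intro N
  induction N with
  | zero =>
    intro A B hN _
    have hA : A = ∅ := card_eq_zero.1 (by omega)
    have hB : B = ∅ := card_eq_zero.1 (by omega)
    rw [hA, hB, union_empty, mom1_empty, add_zero]
  | succ N ih =>
    intro A B hN h
    by_cases h0 : A.card + B.card = 0
    · have hA : A = ∅ := card_eq_zero.1 (by omega)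
      have hB : B = ∅ := card_eq_zero.1 (by omega)
      rw [hA, hB, union_empty, mom1_empty, add_zero]
    have hd := h.disj
    have h1 := mom1_rec r (A ∪ B)
    rw [sum_union hd, card_union_of_disjoint hd] at h1
    have h2 : ∑ i ∈ A, (1 + mom1 r (rest r (A ∪ B) i)) =
        (A.card : ℝ) * mom1 r A + A.card * mom1 r B := by
      rw [mom1_rec r A, ← nsmul_eq_mul, ← sum_const, ← sum_add_distrib]
      apply sum_congr rfl
      intro i hi
      have hc := card_rest (r := r) hi
      rw [rest_union h hi, ih (rest r A i) B (by omega) (h.rest_left i)]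
      ring
    have h3 : ∑ i ∈ B, (1 + mom1 r (rest r (A ∪ B) i)) =
        (B.card : ℝ) * mom1 r B + B.card * mom1 r A := by
      rw [mom1_rec r B, ← nsmul_eq_mul, ← sum_const, ← sum_add_distrib]
      apply sum_congr rfl
      intro i hi
      have hc := card_rest (r := r) hi
      rw [union_comm A B, rest_union h.symm hi, union_comm,
        ih A (rest r B i) (by omega) (h.symm.rest_left i).symm]
      ring
    rw [h2, h3] at h1
    have hpos : (0 : ℝ) < (A.card + B.card : ℕ) := by
      have : 0 < A.card + B.card := by omega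
      exact_mod_cast this
    apply mul_left_cancel₀ hpos.ne'
    rw [h1]
    push_cast
    ring

theorem add2 (r : ℕ) : ∀ (N : ℕ) (A B : Finset ℕ), A.card + B.card ≤ N → Indep r A B →
    mom2 r (A ∪ B) = mom2 r A + mom2 r B + 2 * mom1 r A * mom1 r B := by
  intro N
  induction N with
  | zero =>
    intro A B hN _
    have hA : A = ∅ := card_eq_zero.1 (by omega)
    have hB : B = ∅ := card_eq_zero.1 (by omega)
    rw [hA, hB, union_empty, mom1_empty, mom2_empty]; ring
  | succ N ih =>
    intro A B hN h
    by_cases h0 : A.card + B.card = 0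
    · have hA : A = ∅ := card_eq_zero.1 (by omega)
      have hB : B = ∅ := card_eq_zero.1 (by omega)
      rw [hA, hB, union_empty, mom1_empty, mom2_empty]; ring
    have hd := h.disj
    have h1 := mom2_rec r (A ∪ B)
    rw [sum_union hd, card_union_of_disjoint hd] at h1
    have h2 : ∑ i ∈ A, (1 + 2 * mom1 r (rest r (A ∪ B) i) + mom2 r (rest r (A ∪ B) i)) =
        (A.card : ℝ) * mom2 r A + A.card * mom2 r B + 2 * mom1 r B * (A.card * mom1 r A) := by
      rw [mom2_rec r A, mom1_rec r A, mul_sum, ← nsmul_eq_mul, ← sum_const, ← sum_add_distrib,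
        ← sum_add_distrib]
      apply sum_congr rfl
      intro i hi
      have hc := card_rest (r := r) hi
      rw [rest_union h hi, ih (rest r A i) B (by omega) (h.rest_left i),
        add1 r _ (rest r A i) B (le_refl _) (h.rest_left i)]
      ring
    have h3 : ∑ i ∈ B, (1 + 2 * mom1 r (rest r (A ∪ B) i) + mom2 r (rest r (A ∪ B) i)) =
        (B.card : ℝ) * mom2 r B + B.card * mom2 r A + 2 * mom1 r A * (B.card * mom1 r B) := by
      rw [mom2_rec r B, mom1_rec r B, mul_sum, ← nsmul_eq_mul, ← sum_const, ← sum_add_distrib,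
        ← sum_add_distrib]
      apply sum_congr rfl
      intro i hi
      have hc := card_rest (r := r) hi
      rw [union_comm A B, rest_union h.symm hi, union_comm,
        ih A (rest r B i) (by omega) (h.symm.rest_left i).symm,
        add1 r _ A (rest r B i) (le_refl _) (h.symm.rest_left i).symm]
      ring
    rw [h2, h3] at h1
    have hpos : (0 : ℝ) < (A.card + B.card : ℕ) := by
      have : 0 < A.card + B.card := by omega
      exact_mod_cast this
    apply mul_left_cancel₀ hpos.ne'
    rw [h1]
    push_cast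
    ring

/-- Translation invariance. -/
theorem rest_map (r c : ℕ) (A : Finset ℕ) (i : ℕ) :
    rest r (A.map (addRightEmbedding c)) (i + c) = (rest r A i).map (addRightEmbedding c) := by
  ext j
  rw [mem_rest, mem_map, mem_map]
  simp only [addRightEmbedding_apply]
  constructor
  · rintro ⟨⟨h1, a, ha, rfl⟩, h3⟩
    exact ⟨a, mem_rest.2 ⟨⟨by omega, ha⟩, by omega⟩, rfl⟩
  · rintro ⟨a, ha, rfl⟩
    obtain ⟨⟨h1, h2⟩, h3⟩ := mem_rest.1 ha
    exact ⟨⟨by omega, a, h2, rfl⟩, by omega⟩

theorem M1_map (r c : ℕ) : ∀ (k : ℕ) (A : Finset ℕ),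
    M1 r k (A.map (addRightEmbedding c)) = M1 r k A := by
  intro k
  induction k with
  | zero => intro A; rfl
  | succ k ih =>
    intro A
    rw [M1, M1, sum_map, card_map]
    congr 1
    apply sum_congr rfl
    intro i _
    rw [addRightEmbedding_apply, rest_map, ih]

theorem M2_map (r c : ℕ) : ∀ (k : ℕ) (A : Finset ℕ),
    M2 r k (A.map (addRightEmbedding c)) = M2 r k A := by
  intro k
  induction k with
  | zero => intro A; rfl
  | succ k ih =>
    intro A
    rw [M2, M2, sum_map, card_map]
    congr 1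
    apply sum_congr rfl
    intro i _
    rw [addRightEmbedding_apply, rest_map, ih, M1_map]

theorem mom1_map (r c : ℕ) (A : Finset ℕ) : mom1 r (A.map (addRightEmbedding c)) = mom1 r A := by
  unfold mom1; rw [card_map, M1_map]

theorem mom2_map (r c : ℕ) (A : Finset ℕ) : mom2 r (A.map (addRightEmbedding c)) = mom2 r A := by
  unfold mom2; rw [card_map, M2_map]

/-- The moments for the interval with `n` sites. -/
noncomputable def mm (r n : ℕ) : ℝ := mom1 r (range (n + 1 - r))
noncomputable def qq (r n : ℕ) : ℝ := mom2 r (range (n + 1 - r))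

theorem rest_range {r k i : ℕ} (hr : 1 ≤ r) (hi : i ≤ k) :
    rest r (range (k + 1)) i = range (i + 1 - r) ∪
      (range (k - i + 1 - r)).map (addRightEmbedding (i + r)) := by
  ext j
  rw [mem_rest, mem_union, mem_map, mem_range, mem_range]
  simp only [addRightEmbedding_apply, mem_range]
  constructor
  · rintro ⟨⟨h1, h2⟩, h3 | h3⟩
    · left; omega
    · right; exact ⟨j - (i + r), by omega, by omega⟩
  · rintro (h | ⟨a, ha, rfl⟩)
    · omega
    · omega

theorem indep_range {r k i : ℕ} (hr : 1 ≤ r) :
    Indep r (range (i + 1 - r)) ((range (k - i + 1 - r)).map (addRightEmbedding (i + r))) := by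
  intro a ha b hb
  rw [mem_range] at ha
  rw [mem_map] at hb
  obtain ⟨c, _, rfl⟩ := hb
  rw [addRightEmbedding_apply]
  omega

theorem mom_interval {r : ℕ} (hr : 2 ≤ r) : Mom r (mm r) (qq r) := by
  have hr1 : 1 ≤ r := by omega
  refine ⟨hr, ?_, ?_, ?_, ?_⟩
  · intro n hn
    unfold mm
    have : n + 1 - r = 0 := by omega
    rw [this, range_zero, mom1_empty]
  · intro n hn
    unfold qq
    have : n + 1 - r = 0 := by omega
    rw [this, range_zero, mom2_empty]
  · intro k
    unfold mm
    have e : k + r + 1 - r = k + 1 := by omega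
    rw [e]
    have h := mom1_rec r (range (k + 1))
    rw [card_range] at h
    push_cast at h
    rw [h]
    have h2 : ∀ i ∈ range (k + 1), (1 + mom1 r (rest r (range (k + 1)) i)) =
        1 + mom1 r (range (i + 1 - r)) + mom1 r (range (k - i + 1 - r)) := by
      intro i hi
      rw [mem_range] at hi
      rw [rest_range hr1 (by omega), add1 r _ _ _ (le_refl _) (indep_range hr1), mom1_map]
      ring
    rw [sum_congr rfl h2, sum_add_distrib, sum_add_distrib]
    have h3 : ∑ i ∈ range (k + 1), mom1 r (range (k - i + 1 - r)) =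
        ∑ i ∈ range (k + 1), mom1 r (range (i + 1 - r)) := by
      rw [← sum_range_reflect (fun i => mom1 r (range (i + 1 - r))) (k + 1)]
      apply sum_congr rfl
      intro i _
      congr 3
    rw [h3]
    simp
    ring
  · intro k
    unfold mm qq
    have e : k + r + 1 - r = k + 1 := by omega
    rw [e]
    have h := mom2_rec r (range (k + 1))
    rw [card_range] at h
    push_cast at h
    rw [h]
    have h2 : ∀ i ∈ range (k + 1), (1 + 2 * mom1 r (rest r (range (k + 1)) i) +
        mom2 r (rest r (range (k + 1)) i)) =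
        1 + 2 * mom1 r (range (i + 1 - r)) + 2 * mom1 r (range (k - i + 1 - r)) +
        mom2 r (range (i + 1 - r)) + mom2 r (range (k - i + 1 - r)) +
        2 * (mom1 r (range (i + 1 - r)) * mom1 r (range (k - i + 1 - r))) := by
      intro i hi
      rw [mem_range] at hi
      rw [rest_range hr1 (by omega), add1 r _ _ _ (le_refl _) (indep_range hr1),
        add2 r _ _ _ (le_refl _) (indep_range hr1), mom1_map, mom2_map]
      ring
    rw [sum_congr rfl h2, sum_add_distrib, sum_add_distrib, sum_add_distrib, sum_add_distrib,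
      sum_add_distrib, ← mul_sum, ← mul_sum, ← mul_sum]
    have h3 : ∑ i ∈ range (k + 1), mom1 r (range (k - i + 1 - r)) =
        ∑ i ∈ range (k + 1), mom1 r (range (i + 1 - r)) := by
      rw [← sum_range_reflect (fun i => mom1 r (range (i + 1 - r))) (k + 1)]
      apply sum_congr rfl
      intro i _
      congr 3
    have h4 : ∑ i ∈ range (k + 1), mom2 r (range (k - i + 1 - r)) =
        ∑ i ∈ range (k + 1), mom2 r (range (i + 1 - r)) := by
      rw [← sum_range_reflect (fun i => mom2 r (range (i + 1 - r))) (k + 1)]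
      apply sum_congr rfl
      intro i _
      congr 3
    rw [h3, h4]
    simp
    ring

end Q292.RSA
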