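import Mathlib

/-! Averaging recursions. -/

set_option autoImplicit false

namespace Q292.RSA

open Finset Filter

/-- A summability criterion for slowly contracting recursions. -/
theorem summable_of_rec {x g : ℕ → ℝ} {C : ℝ} {r : ℕ} (hC : 0 ≤ C) (hx : ∀ n, 0 ≤ x n)
    (hg0 : ∀ n, 0 ≤ g n) (hg : Summable g)
    (h : ∀ k, x (k + r) ≤ C / (k + 2) * ∑ j ∈ Ico (k + 1) (k + r), x j + g k) :
    Summable x := by
  -- the threshold
  obtain ⟨K, hK⟩ := exists_nat_ge (2 * C * r)
  set G : ℝ := ∑' k, g k with hG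
  have hGp : ∀ N, ∑ k ∈ range N, g k ≤ G := fun N => hg.sum_le_tsum _ (fun i _ => hg0 i)
  -- key inequality
  have key : ∀ N, ∑ k ∈ Ico K (K + N), x (k + r) ≤
      1 / 2 * ∑ j ∈ range (K + N + r), x j + G := by
    intro N
    have h1 : ∑ k ∈ Ico K (K + N), x (k + r) ≤
        ∑ k ∈ Ico K (K + N), (C / (K + 2) * ∑ j ∈ Ico (k + 1) (k + r), x j + g k) := by
      apply sum_le_sum
      intro k hk
      refine (h k).trans ?_
      have hkK : K ≤ k := (mem_Ico.1 hk).1
      have h2 : C / ((k : ℝ) + 2) ≤ C / ((K : ℝ) + 2) := by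
        apply div_le_div_of_nonneg_left hC (by positivity)
        have : (K : ℝ) ≤ k := by exact_mod_cast hkK
        linarith
      have h3 : 0 ≤ ∑ j ∈ Ico (k + 1) (k + r), x j := sum_nonneg (fun j _ => hx j)
      have := mul_le_mul_of_nonneg_right h2 h3
      linarith
    refine h1.trans ?_
    rw [sum_add_distrib, ← mul_sum]
    have h2 : ∑ k ∈ Ico K (K + N), g k ≤ G := by
      refine le_trans ?_ (hGp (K + N))
      apply sum_le_sum_of_subset_of_nonneg
      · intro a ha
        have := (mem_Ico.1 ha).2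
        exact mem_range.2 this
      · intro i _ _; exact hg0 i
    have h3 : ∑ k ∈ Ico K (K + N), ∑ j ∈ Ico (k + 1) (k + r), x j ≤
        r * ∑ j ∈ range (K + N + r), x j := by
      have e1 : ∀ k, ∑ j ∈ Ico (k + 1) (k + r), x j ≤ ∑ i ∈ range r, x (k + i) := by
        intro k
        have : ∑ i ∈ range r, x (k + i) = ∑ j ∈ Ico k (k + r), x j := by
          rw [sum_Ico_eq_sum_range]; simp
        rw [this]
        apply sum_le_sum_of_subset_of_nonneg
        · intro a ha
          rw [mem_Ico] at ha ⊢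
          omega
        · intro i _ _; exact hx i
      calc ∑ k ∈ Ico K (K + N), ∑ j ∈ Ico (k + 1) (k + r), x j
          ≤ ∑ k ∈ Ico K (K + N), ∑ i ∈ range r, x (k + i) := sum_le_sum (fun k _ => e1 k)
        _ = ∑ i ∈ range r, ∑ k ∈ Ico K (K + N), x (k + i) := sum_comm
        _ ≤ ∑ _i ∈ range r, ∑ j ∈ range (K + N + r), x j := by
            apply sum_le_sum
            intro i hi
            have hi' := mem_range.1 hi
            have e2 : ∑ k ∈ Ico K (K + N), x (k + i) = ∑ j ∈ Ico (K + i) (K + N + i), x j := by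
              rw [← sum_Ico_add' x K (K + N) i]
            rw [e2]
            apply sum_le_sum_of_subset_of_nonneg
            · intro a ha
              rw [mem_Ico] at ha
              rw [mem_range]
              omega
            · intro i _ _; exact hx i
        _ = r * ∑ j ∈ range (K + N + r), x j := by rw [sum_const, card_range, nsmul_eq_mul]
    have hS : 0 ≤ ∑ j ∈ range (K + N + r), x j := sum_nonneg (fun j _ => hx j)
    have h4 : C / ((K : ℝ) + 2) * (r * ∑ j ∈ range (K + N + r), x j) ≤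
        1 / 2 * ∑ j ∈ range (K + N + r), x j := by
      rw [← mul_assoc]
      apply mul_le_mul_of_nonneg_right _ hS
      rw [div_mul_eq_mul_div, div_le_iff₀ (by positivity)]
      linarith
    have h5 : C / ((K : ℝ) + 2) * ∑ k ∈ Ico K (K + N), ∑ j ∈ Ico (k + 1) (k + r), x j ≤
        C / ((K : ℝ) + 2) * (r * ∑ j ∈ range (K + N + r), x j) :=
      mul_le_mul_of_nonneg_left h3 (by positivity)
    linarith
  -- bounded sums
  apply summable_of_sum_range_le (c := 2 * (∑ j ∈ range (K + r), x j + G)) hx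
  intro N
  have h1 : ∑ j ∈ range (K + N + r), x j =
      ∑ j ∈ range (K + r), x j + ∑ k ∈ Ico K (K + N), x (k + r) := by
    have e2 : ∑ k ∈ Ico K (K + N), x (k + r) = ∑ j ∈ Ico (K + r) (K + N + r), x j := by
      rw [← sum_Ico_add' x K (K + N) r]
    rw [e2, sum_range_add_sum_Ico]
    omega
  have h2 := key N
  have h3 : ∑ j ∈ range N, x j ≤ ∑ j ∈ range (K + N + r), x j := by
    apply sum_le_sum_of_subset_of_nonneg
    · intro a ha
      rw [mem_range] at ha ⊢
      omega
    · intro i _ _; exact hx i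
  linarith

/-- Increments of the normalised solution of the averaging recursion. -/
theorem incr {r : ℕ} {y b : ℕ → ℝ}
    (h : ∀ k : ℕ, ((k : ℝ) + 1) * y (k + r) = 2 * ∑ i ∈ range (k + 1), y i + b k) (hr : 1 ≤ r)
    (k : ℕ) :
    y (k + r + 1) / ((k + r + 1 : ℕ) + (r : ℝ)) - y (k + r) / ((k + r : ℕ) + (r : ℝ)) =
      - (2 * ((k : ℝ) + 1 + r) / (((k : ℝ) + 2) * (k + 1 + 2 * r))) *
        (y (k + r) / ((k + r : ℕ) + (r : ℝ)) - y (k + 1) / ((k + 1 : ℕ) + (r : ℝ))) +
      (b (k + 1) - b k) / (((k : ℝ) + 2) * (k + 1 + 2 * r)) := by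
  have h1 := h k
  have h2 := h (k + 1)
  have e : k + 1 + r = k + r + 1 := by ring
  rw [e, sum_range_succ] at h2
  push_cast at h2 ⊢
  have hr' : (1 : ℝ) ≤ r := by exact_mod_cast hr
  have hk : (0 : ℝ) ≤ k := by positivity
  set K : ℝ := (k : ℝ) with hK
  set R : ℝ := (r : ℝ) with hR
  set Y2 := y (k + r + 1)
  set Y1 := y (k + r)
  set Y0 := y (k + 1)
  have d1 : K + R + 1 + R ≠ 0 := by positivity
  have d2 : K + R + R ≠ 0 := by positivity
  have d3 : K + 1 + R ≠ 0 := by positivity
  have d4 : K + 2 ≠ 0 := by positivity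
  have d5 : K + 1 + 2 * R ≠ 0 := by positivity
  have h3 : (K + 2) * Y2 = (K + 1) * Y1 + 2 * Y0 + (b (k + 1) - b k) := by linarith
  have h4 : Y2 = ((K + 1) * Y1 + 2 * Y0 + (b (k + 1) - b k)) / (K + 2) := by
    rw [eq_div_iff d4]; linarith
  rw [h4]
  field_simp
  ring

/-- Convergence of the normalised solution, with an exponential rate if there is no forcing. -/
theorem conv_hom {r : ℕ} (hr : 1 ≤ r) {y : ℕ → ℝ}
    (h : ∀ k : ℕ, ((k : ℝ) + 1) * y (k + r) = 2 * ∑ i ∈ range (k + 1), y i) :
    ∃ c K : ℝ, 0 ≤ K ∧ ∀ n : ℕ, |y n - c * ((n : ℝ) + r)| ≤ K * ((n : ℝ) + r) / 2 ^ n := by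
  set w : ℕ → ℝ := fun n => y n / ((n : ℕ) + (r : ℝ)) with hw
  set δ : ℕ → ℝ := fun n => w (n + 1) - w n with hδ
  have hinc : ∀ k, δ (k + r) = - (2 * ((k : ℝ) + 1 + r) / (((k : ℝ) + 2) * (k + 1 + 2 * r))) *
      (w (k + r) - w (k + 1)) := by
    intro k
    have := incr (y := y) (b := fun _ => 0) (r := r) (fun k => by rw [h k, add_zero]) hr k
    simp only [sub_self, zero_div, add_zero] at this
    exact this
  have htel : ∀ k, w (k + r) - w (k + 1) = ∑ j ∈ Ico (k + 1) (k + r), δ j := by
    intro k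
    rw [Finset.sum_Ico_sub w (by omega)]
  have hbound : ∀ k, |δ (k + r)| ≤ 2 / ((k : ℝ) + 2) * ∑ j ∈ Ico (k + 1) (k + r), |δ j| := by
    intro k
    rw [hinc, htel, abs_mul, abs_neg]
    apply mul_le_mul _ (abs_sum_le_sum_abs _ _) (abs_nonneg _) (by positivity)
    rw [abs_of_nonneg (by positivity), div_le_div_iff₀ (by positivity) (by positivity)]
    have hk : (0 : ℝ) ≤ k := by positivity
    have hr' : (0 : ℝ) ≤ r := by positivity
    nlinarith [mul_nonneg hk hr']
  have hsum : Summable (fun n => 2 ^ n * |δ n|) := by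
    apply summable_of_rec (g := fun _ => 0) (C := 2 * 2 ^ r) (r := r) (by positivity)
      (fun n => by positivity) (fun _ => le_refl _) summable_zero
    intro k
    rw [add_zero]
    have h1 := hbound k
    calc (2 : ℝ) ^ (k + r) * |δ (k + r)|
        ≤ 2 ^ (k + r) * (2 / ((k : ℝ) + 2) * ∑ j ∈ Ico (k + 1) (k + r), |δ j|) :=
          mul_le_mul_of_nonneg_left h1 (by positivity)
      _ = 2 / ((k : ℝ) + 2) * ∑ j ∈ Ico (k + 1) (k + r), 2 ^ (k + r) * |δ j| := by
          rw [← mul_sum]; ring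
      _ ≤ 2 / ((k : ℝ) + 2) * ∑ j ∈ Ico (k + 1) (k + r), 2 ^ r * (2 ^ j * |δ j|) := by
          apply mul_le_mul_of_nonneg_left _ (by positivity)
          apply sum_le_sum
          intro j hj
          rw [← mul_assoc, ← pow_add]
          apply mul_le_mul_of_nonneg_right _ (abs_nonneg _)
          apply pow_le_pow_right₀ (by norm_num)
          have := (mem_Ico.1 hj).1
          omega
      _ = 2 * 2 ^ r / ((k : ℝ) + 2) * ∑ j ∈ Ico (k + 1) (k + r), 2 ^ j * |δ j| := by
          rw [← mul_sum]; ring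
  have hsum1 : Summable (fun n => |δ n|) := by
    apply Summable.of_nonneg_of_le (fun n => abs_nonneg _) _ hsum
    intro n
    have : (1 : ℝ) ≤ 2 ^ n := one_le_pow₀ (by norm_num)
    nlinarith [abs_nonneg (δ n)]
  -- the limit
  have hc : CauchySeq w := by
    apply cauchySeq_of_summable_dist
    apply hsum1.congr
    intro n
    rw [Real.dist_eq, abs_sub_comm]
  obtain ⟨c, hcw⟩ := cauchySeq_tendsto_of_complete hc
  set K : ℝ := ∑' n, 2 ^ n * |δ n| with hK
  have hK0 : 0 ≤ K := tsum_nonneg (fun n => by positivity)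
  refine ⟨c, K, hK0, fun n => ?_⟩
  have hn : |w n - c| ≤ K / 2 ^ n := by
    have h1 : dist (w n) c ≤ ∑' j, |δ (n + j)| := by
      apply dist_le_tsum_of_dist_le_of_tendsto (fun j => |δ j|) _ hsum1 hcw
      intro j
      rw [Real.dist_eq, abs_sub_comm]
    rw [Real.dist_eq] at h1
    refine h1.trans ?_
    have hs2 : Summable (fun j => |δ (n + j)|) := by
      have := (summable_nat_add_iff n).2 hsum1
      refine this.congr (fun j => by rw [add_comm])
    have hs3 : Summable (fun j => 2 ^ (n + j) * |δ (n + j)|) := by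
      have := (summable_nat_add_iff n).2 hsum
      refine this.congr (fun j => by rw [add_comm])
    rw [le_div_iff₀ (by positivity), ← tsum_mul_right]
    calc ∑' j, |δ (n + j)| * 2 ^ n ≤ ∑' j, 2 ^ (n + j) * |δ (n + j)| := by
          apply (hs2.mul_right _).tsum_le_tsum _ hs3
          intro j
          rw [mul_comm]
          apply mul_le_mul_of_nonneg_right _ (abs_nonneg _)
          exact pow_le_pow_right₀ (by norm_num) (by omega)
      _ ≤ K := by
          have h5 := hsum.sum_add_tsum_nat_add n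
          have h6 : 0 ≤ ∑ i ∈ range n, 2 ^ i * |δ i| := sum_nonneg (fun i _ => by positivity)
          have h7 : ∑' j, (2 : ℝ) ^ (n + j) * |δ (n + j)| = ∑' j, 2 ^ (j + n) * |δ (j + n)| := by
            apply tsum_congr; intro j; rw [add_comm]
          rw [h7]
          linarith
  have hnr : (0 : ℝ) < (n : ℝ) + r := by
    have : (1 : ℝ) ≤ r := by exact_mod_cast hr
    positivity
  have e : y n - c * ((n : ℝ) + r) = (w n - c) * ((n : ℝ) + r) := by
    rw [hw]; field_simp
  rw [e, abs_mul, abs_of_pos hnr]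
  calc |w n - c| * ((n : ℝ) + r) ≤ K / 2 ^ n * ((n : ℝ) + r) :=
        mul_le_mul_of_nonneg_right hn hnr.le
    _ = K * ((n : ℝ) + r) / 2 ^ n := by ring

/-- Convergence of the normalised solution with bounded forcing. -/
theorem conv_forced {r : ℕ} (hr : 1 ≤ r) {y b : ℕ → ℝ} {B : ℝ}
    (h : ∀ k : ℕ, ((k : ℝ) + 1) * y (k + r) = 2 * ∑ i ∈ range (k + 1), y i + b k)
    (hb : ∀ k, |b k| ≤ B) :
    ∃ c : ℝ, Tendsto (fun n : ℕ => y n / ((n : ℝ) + r)) atTop (nhds c) := by
  set w : ℕ → ℝ := fun n => y n / ((n : ℕ) + (r : ℝ)) with hw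
  set δ : ℕ → ℝ := fun n => w (n + 1) - w n with hδ
  have hinc : ∀ k, δ (k + r) = - (2 * ((k : ℝ) + 1 + r) / (((k : ℝ) + 2) * (k + 1 + 2 * r))) *
      (w (k + r) - w (k + 1)) + (b (k + 1) - b k) / (((k : ℝ) + 2) * (k + 1 + 2 * r)) := by
    intro k
    exact incr h hr k
  have htel : ∀ k, w (k + r) - w (k + 1) = ∑ j ∈ Ico (k + 1) (k + r), δ j := by
    intro k
    rw [Finset.sum_Ico_sub w (by omega)]
  have hB : 0 ≤ B := (abs_nonneg _).trans (hb 0)
  have hbound : ∀ k, |δ (k + r)| ≤ 2 / ((k : ℝ) + 2) * ∑ j ∈ Ico (k + 1) (k + r), |δ j| +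
      2 * B * (1 / ((k : ℝ) + 1) ^ 2) := by
    intro k
    rw [hinc, htel]
    refine (abs_add_le _ _).trans (add_le_add ?_ ?_)
    · rw [abs_mul, abs_neg]
      apply mul_le_mul _ (abs_sum_le_sum_abs _ _) (abs_nonneg _) (by positivity)
      rw [abs_of_nonneg (by positivity), div_le_div_iff₀ (by positivity) (by positivity)]
      have hk : (0 : ℝ) ≤ k := by positivity
      have hr' : (0 : ℝ) ≤ r := by positivity
      nlinarith [mul_nonneg hk hr']
    · rw [abs_div, abs_of_pos (show (0 : ℝ) < ((k : ℝ) + 2) * (k + 1 + 2 * r) by positivity)]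
      rw [mul_one_div]
      apply div_le_div₀ (by positivity) _ (by positivity) _
      · have := hb (k + 1)
        have := hb k
        have := abs_sub (b (k + 1)) (b k)
        linarith
      · have hk : (0 : ℝ) ≤ k := by positivity
        have hr' : (0 : ℝ) ≤ r := by positivity
        nlinarith [mul_nonneg hk hr']
  have hsum1 : Summable (fun n => |δ n|) := by
    apply summable_of_rec (g := fun k : ℕ => 2 * B * (1 / ((k : ℝ) + 1) ^ 2)) (C := 2) (r := r)
      (by norm_num) (fun n => abs_nonneg _) (fun n => by positivity) _ hbound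
    apply Summable.mul_left
    have := (summable_nat_add_iff 1).2 (Real.summable_one_div_nat_pow.2 (by norm_num : 1 < 2))
    refine this.congr (fun j => by push_cast; ring)
  have hc : CauchySeq w := by
    apply cauchySeq_of_summable_dist
    apply hsum1.congr
    intro n
    rw [Real.dist_eq, abs_sub_comm]
  exact cauchySeq_tendsto_of_complete hc

end Q292.RSA
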